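import Pool.Agent.H.MP_36cdb9_an.Flips

set_option autoImplicit false

open MeasureTheory ProbabilityTheory Filter Topology

namespace Pool.Agent.H.MP_36cdb9_an

lemma fiber_measurable_sgn : Measurable sgn := measurable_of_finite _

lemma fiber_abs_sgn (b : Bool) : |sgn b| = 1 := by
  unfold sgn
  cases b <;> simp

lemma fiber_sgn_not (b : Bool) : sgn (!b) = - sgn b := by
  unfold sgn
  cases b <;> simp

/-- the rearrangement of `Coord L × S` -/
def fiberPsi (L : ℕ → ℕ) (S : Type) (p : Coord L × S) :
    (∀ j, Fin (L j + 1)) × ((ℕ → Bool) × S) :=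
  (fun j => (p.1 j).1, (fun j => (p.1 j).2, p.2))

lemma fiberPsi_measurable (L : ℕ → ℕ) (S : Type) [MeasurableSpace S] :
    Measurable (fiberPsi L S) := by
  unfold fiberPsi
  refine Measurable.prodMk ?_ (Measurable.prodMk ?_ measurable_snd)
  · exact measurable_pi_lambda _ fun j =>
      measurable_fst.comp ((measurable_pi_apply j).comp measurable_fst)
  · exact measurable_pi_lambda _ fun j =>
      measurable_snd.comp ((measurable_pi_apply j).comp measurable_fst)

lemma fiber_flip_measurable {L : ℕ → ℕ} (i : ℕ) :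
    Measurable (flipSign (L := L) i) := by
  unfold flipSign
  refine measurable_pi_lambda _ fun j => ?_
  by_cases h : j = i
  · subst h
    simp only [Function.update_self]
    refine Measurable.prodMk (measurable_fst.comp (measurable_pi_apply j)) ?_
    exact (measurable_of_finite (fun b : Bool => !b)).comp
      (measurable_snd.comp (measurable_pi_apply j))
  · simp only [Function.update_of_ne h]
    exact measurable_pi_apply j

/-- an odd bounded measurable function of the coordinates integrates to zero -/
lemma fiber_odd {L : ℕ → ℕ} (ν : Measure (Coord L)) (i : ℕ)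
    (hinv : ν.map (flipSign i) = ν) (G : Coord L → ℝ) (hG : Measurable G)
    (hodd : ∀ w, G (flipSign i w) = - G w) : ∫ w, G w ∂ν = 0 := by
  have h1 : ∫ w, G w ∂ν = ∫ w, G w ∂(ν.map (flipSign i)) := by rw [hinv]
  rw [integral_map (fiber_flip_measurable i).aemeasurable hG.aestronglyMeasurable] at h1
  simp only [hodd, integral_neg] at h1
  linarith

/-- M10b: disintegration: fix the indices `l`. -/
theorem exists_fiber {X : Type} [NormedAddCommGroup X] [NormedSpace ℝ X] {S : Type}
    [TopologicalSpace S] [CompactSpace S] [PolishSpace S] [MeasurableSpace S] [BorelSpace S]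
    (ev : S → X →L[ℝ] ℝ) (hev : ∀ x, Continuous fun s => ev s x) (R : ℝ) (hR : ∀ s, ‖ev s‖ ≤ R)
    (c : ℝ) (hc : 0 < c) (L : ℕ → ℕ) (x : (j : ℕ) → Fin (L j + 1) → X)
    (hx : ∀ j l, ‖x j l‖ ≤ 1)
    (ρ : Measure (Coord L × S)) [IsProbabilityMeasure ρ]
    (hinv : ∀ i, (ρ.map Prod.fst).map (flipSign i) = ρ.map Prod.fst)
    (hgain : ∀ j, c ≤ ∫ p, sgn (p.1 j).2 * ev p.2 (x j (p.1 j).1) ∂ρ) :
    ∃ (l : ∀ j, Fin (L j + 1)) (φ : ℕ → ℕ) (μ : Measure ((ℕ → Bool) × S)),
      IsProbabilityMeasure μ ∧ StrictMono φ ∧
      (∀ i j, i ≠ j → ∫ q, sgn (q.1 i) * sgn (q.1 j) ∂μ = 0) ∧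
      ∀ k, c / 2 ≤ ∫ q, sgn (q.1 (φ k)) * ev q.2 (x (φ k) (l (φ k))) ∂μ := by
  classical
  have hΨ : Measurable (fiberPsi L S) := fiberPsi_measurable L S
  -- nonemptiness
  have hSne : Nonempty S := by
    by_contra h
    rw [not_nonempty_iff] at h
    have : (Set.univ : Set (Coord L × S)) = ∅ := by
      ext p
      exact (h.false p.2).elim
    have h1 : ρ Set.univ = 1 := measure_univ
    rw [this, measure_empty] at h1
    exact zero_ne_one h1
  obtain ⟨s₀⟩ := hSne
  have : Nonempty S := ⟨s₀⟩
  have hbd : ∀ (s : S) (y : X), ‖y‖ ≤ 1 → |ev s y| ≤ R := by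
    intro s y hy
    have h1 : ‖ev s y‖ ≤ ‖ev s‖ * ‖y‖ := (ev s).le_opNorm y
    have h2 : ‖ev s‖ * ‖y‖ ≤ R := by
      calc ‖ev s‖ * ‖y‖ ≤ ‖ev s‖ * 1 := by gcongr
        _ ≤ R := by rw [mul_one]; exact hR s
    exact h1.trans h2
  have hR0 : 0 ≤ R := le_trans (norm_nonneg _) (hR s₀)
  set ρ' : Measure ((∀ j, Fin (L j + 1)) × ((ℕ → Bool) × S)) := ρ.map (fiberPsi L S) with hρ'
  have : IsProbabilityMeasure ρ' := Measure.isProbabilityMeasure_map hΨ.aemeasurable
  set P : Measure (∀ j, Fin (L j + 1)) := ρ'.fst with hP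
  set κ := ρ'.condKernel with hκ
  have hdis : P ⊗ₘ κ = ρ' := Measure.disintegrate ρ' ρ'.condKernel
  -- the integrands
  let F : ℕ → (∀ j, Fin (L j + 1)) × ((ℕ → Bool) × S) → ℝ := fun j p =>
    sgn (p.2.1 j) * ev p.2.2 (x j (p.1 j))
  have hFm : ∀ j, Measurable (F j) := by
    intro j
    refine Measurable.mul ?_ ?_
    · exact fiber_measurable_sgn.comp
        ((measurable_pi_apply j).comp (measurable_fst.comp measurable_snd))
    · have h1 : Measurable (fun q : Fin (L j + 1) × S => ev q.2 (x j q.1)) :=
        measurable_from_prod_countable_right (fun a => (hev (x j a)).measurable)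
      exact h1.comp (Measurable.prodMk ((measurable_pi_apply j).comp measurable_fst)
        (measurable_snd.comp measurable_snd))
  have hFb : ∀ j p, |F j p| ≤ R := by
    intro j p
    simp only [F, abs_mul, fiber_abs_sgn, one_mul]
    exact hbd _ _ (hx _ _)
  let G : ℕ → ℕ → (∀ j, Fin (L j + 1)) × ((ℕ → Bool) × S) → ℝ := fun i j p =>
    sgn (p.2.1 i) * sgn (p.2.1 j)
  have hGm : ∀ i j, Measurable (G i j) := by
    intro i j
    refine Measurable.mul ?_ ?_ <;>
    exact fiber_measurable_sgn.comp
        ((measurable_pi_apply _).comp (measurable_fst.comp measurable_snd))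
  have hGb : ∀ i j p, |G i j p| ≤ 1 := by
    intro i j p
    simp only [G, abs_mul, fiber_abs_sgn, one_mul, le_refl]
  have hFint : ∀ j (m : Measure ((∀ j, Fin (L j + 1)) × ((ℕ → Bool) × S))) [IsFiniteMeasure m],
      Integrable (F j) m := by
    intro j m _
    exact Integrable.of_bound (hFm j).aestronglyMeasurable R
      (Eventually.of_forall fun p => by rw [Real.norm_eq_abs]; exact hFb j p)
  have hGint : ∀ i j (m : Measure ((∀ j, Fin (L j + 1)) × ((ℕ → Bool) × S)))
      [IsFiniteMeasure m], Integrable (G i j) m := by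
    intro i j m _
    exact Integrable.of_bound (hGm i j).aestronglyMeasurable 1
      (Eventually.of_forall fun p => by rw [Real.norm_eq_abs]; exact hGb i j p)
  -- (i) orthogonality in almost every fibre
  have horth : ∀ i j, i ≠ j → ∀ᵐ l ∂P, ∫ q, G i j (l, q) ∂(κ l) = 0 := by
    intro i j hij
    have hsm : StronglyMeasurable (fun l => ∫ q, G i j (l, q) ∂(κ l)) :=
      (hGm i j).stronglyMeasurable.integral_kernel_prod_right'
    have hint : Integrable (fun l => ∫ q, G i j (l, q) ∂(κ l)) P := by
      refine Integrable.of_bound hsm.aestronglyMeasurable 1 (Eventually.of_forall fun l => ?_)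
      refine (norm_integral_le_of_norm_le_const (C := 1)
        (Eventually.of_forall fun q => ?_)).trans ?_
      · rw [Real.norm_eq_abs]; exact hGb i j (l, q)
      · simp
    refine Integrable.ae_eq_zero_of_forall_setIntegral_eq_zero hint ?_
    intro A hA _
    have h1 : ∫ p in A ×ˢ (Set.univ : Set ((ℕ → Bool) × S)), G i j p ∂(P ⊗ₘ κ)
        = ∫ l in A, ∫ q in (Set.univ : Set ((ℕ → Bool) × S)), G i j (l, q) ∂(κ l) ∂P :=
      Measure.setIntegral_compProd hA MeasurableSet.univ (hGint i j _).integrableOn
    simp only [Measure.restrict_univ] at h1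
    rw [← h1, hdis, hρ', ← integral_indicator (hA.prod MeasurableSet.univ),
      integral_map hΨ.aemeasurable
        ((hGm i j).indicator (hA.prod MeasurableSet.univ)).aestronglyMeasurable]
    -- now a function of the coordinates only
    let H : Coord L → ℝ := fun w =>
      Set.indicator {w : Coord L | (fun k => (w k).1) ∈ A}
        (fun w => sgn (w i).2 * sgn (w j).2) w
    have hAm : MeasurableSet {w : Coord L | (fun k => (w k).1) ∈ A} := by
      refine hA.preimage (f := fun (w : Coord L) (k : ℕ) => (w k).1) ?_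
      exact measurable_pi_lambda _ fun k => measurable_fst.comp (measurable_pi_apply k)
    have hHm : Measurable H := by
      refine Measurable.indicator ?_ hAm
      exact (fiber_measurable_sgn.comp (measurable_snd.comp (measurable_pi_apply i))).mul
        (fiber_measurable_sgn.comp (measurable_snd.comp (measurable_pi_apply j)))
    have hH : ∀ p : Coord L × S,
        (A ×ˢ (Set.univ : Set ((ℕ → Bool) × S))).indicator (G i j) (fiberPsi L S p)
          = H p.1 := by
      intro p
      simp only [H, Set.indicator]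
      by_cases h : (fun k => (p.1 k).1) ∈ A
      · rw [if_pos, if_pos]
        · rfl
        · exact h
        · exact ⟨h, trivial⟩
      · rw [if_neg, if_neg]
        · exact h
        · intro h'
          exact h h'.1
    simp only [hH]
    have h2 : ∫ w, H w ∂(ρ.map Prod.fst) = ∫ p, H p.1 ∂ρ :=
      integral_map measurable_fst.aemeasurable hHm.aestronglyMeasurable
    rw [← h2]
    refine fiber_odd _ i (hinv i) H hHm ?_
    intro w
    have hidx : (fun k => ((flipSign i w) k).1) = fun k => (w k).1 := by
      funext k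
      unfold flipSign
      by_cases h : k = i
      · subst h; simp
      · simp [Function.update_of_ne h]
    simp only [H, Set.indicator, Set.mem_ofPred_eq, hidx]
    by_cases h : (fun k => (w k).1) ∈ A
    · rw [if_pos h, if_pos h]
      have e1 : ((flipSign i w) i).2 = !(w i).2 := by simp [flipSign]
      have e2 : ((flipSign i w) j).2 = (w j).2 := by
        simp [flipSign, Function.update_of_ne (Ne.symm hij)]
      rw [e1, e2, fiber_sgn_not]
      ring
    · rw [if_neg h, if_neg h, neg_zero]
  -- (ii) gains
  let h : ℕ → (∀ j, Fin (L j + 1)) → ℝ := fun j l => ∫ q, F j (l, q) ∂(κ l)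
  have hhm : ∀ j, StronglyMeasurable (h j) := fun j =>
    (hFm j).stronglyMeasurable.integral_kernel_prod_right'
  have hhb : ∀ j l, |h j l| ≤ R := by
    intro j l
    have := norm_integral_le_of_norm_le_const (μ := κ l) (f := fun q => F j (l, q)) (C := R)
      (Eventually.of_forall fun q => by rw [Real.norm_eq_abs]; exact hFb j (l, q))
    simpa using this
  have hhint : ∀ j, Integrable (h j) P := fun j =>
    Integrable.of_bound (hhm j).aestronglyMeasurable R
      (Eventually.of_forall fun l => by rw [Real.norm_eq_abs]; exact hhb j l)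
  have hhc : ∀ j, c ≤ ∫ l, h j l ∂P := by
    intro j
    have h1 : ∫ l, h j l ∂P = ∫ p, F j p ∂(P ⊗ₘ κ) :=
      (Measure.integral_compProd (hFint j _)).symm
    rw [h1, hdis, hρ', integral_map hΨ.aemeasurable (hFm j).aestronglyMeasurable]
    exact hgain j
  let A : ℕ → Set (∀ j, Fin (L j + 1)) := fun j => {l | c / 2 ≤ h j l}
  have hAm : ∀ j, MeasurableSet (A j) := fun j =>
    measurableSet_le measurable_const (hhm j).measurable
  have hPA : ∀ j, c / 2 ≤ R * P.real (A j) := by
    intro j
    have h1 : ∀ l, h j l ≤ c / 2 + (A j).indicator (fun _ => R) l := by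
      intro l
      by_cases hl : l ∈ A j
      · rw [Set.indicator_of_mem hl]
        have := (abs_le.mp (hhb j l)).2
        linarith
      · rw [Set.indicator_of_notMem hl]
        have : h j l < c / 2 := not_le.mp hl
        linarith
    have h2 : ∫ l, h j l ∂P ≤ ∫ l, (c / 2 + (A j).indicator (fun _ => R) l) ∂P := by
      refine integral_mono (hhint j) ?_ h1
      exact (integrable_const _).add ((integrable_const R).indicator (hAm j))
    rw [integral_add (integrable_const _) ((integrable_const R).indicator (hAm j)),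
      integral_indicator (hAm j)] at h2
    simp only [integral_const, smul_eq_mul, measureReal_restrict_apply_univ,
      probReal_univ, one_mul] at h2
    have := hhc j
    nlinarith [h2, this]
  have hRpos : 0 < R := by
    rcases hR0.eq_or_lt with h0 | h0
    · have := hPA 0
      rw [← h0, zero_mul] at this
      linarith
    · exact h0
  -- the good fibre
  have horthall : ∀ᵐ l ∂P, ∀ i j, i ≠ j → ∫ q, G i j (l, q) ∂(κ l) = 0 := by
    rw [ae_all_iff]
    intro i
    rw [ae_all_iff]
    intro j
    by_cases hij : i = j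
    · exact Eventually.of_forall fun l h => (h hij).elim
    · filter_upwards [horth i j hij] with l hl _ using hl
  have hex : ∃ l, (∀ i j, i ≠ j → ∫ q, G i j (l, q) ∂(κ l) = 0) ∧
      ∃ᶠ j in atTop, l ∈ A j := by
    by_contra hcon
    push Not at hcon
    have hev0 : ∀ᵐ l ∂P, ∀ᶠ j in atTop, l ∈ A j ↔ l ∈ (∅ : Set (∀ j, Fin (L j + 1))) := by
      filter_upwards [horthall] with l hl
      have := hcon l hl
      filter_upwards [this] with j hj
      simp [hj]
    have ht := tendsto_measure_of_ae_tendsto_indicator_of_isFiniteMeasure (μ := P) atTop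
      MeasurableSet.empty hAm hev0
    rw [measure_empty] at ht
    have ht' : Tendsto (fun j => R * P.real (A j)) atTop (𝓝 (R * 0)) := by
      refine Tendsto.const_mul R ?_
      have := (ENNReal.tendsto_toReal (ENNReal.zero_ne_top)).comp ht
      simpa [Measure.real, Function.comp_def] using this
    have : c / 2 ≤ R * 0 := ge_of_tendsto' ht' hPA
    linarith
  obtain ⟨l, hl1, hl2⟩ := hex
  obtain ⟨φ, hφ, hφA⟩ := extraction_of_frequently_atTop hl2
  refine ⟨l, φ, κ l, inferInstance, hφ, hl1, fun k => hφA k⟩

end Pool.Agent.H.MP_36cdb9_an
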