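import Pool.Agent.H.MP_36cdb9_an.Defs

set_option autoImplicit false

open MeasureTheory

namespace Pool.Agent.H.MP_36cdb9_an

lemma patterns_summable {X : Type} [NormedAddCommGroup X] [NormedSpace ℝ X] [CompleteSpace X]
    (f : ℕ → X) (r : ℝ) (hf : ∀ n, ‖f n‖ ≤ r) (v : lp (fun _ : ℕ => ℝ) 1) :
    Summable (fun n => v n • f n) := by
  have h1 : Summable (fun n => |v n|) := by
    have := lp.memℓp v
    rw [memℓp_gen_iff (by norm_num)] at this
    simpa using this
  refine Summable.of_norm_bounded (g := fun n => |v n| * r) (h1.mul_right r) fun n => ?_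
  rw [norm_smul, Real.norm_eq_abs]
  exact mul_le_mul_of_nonneg_left (hf n) (abs_nonneg _)

lemma patterns_norm (v : lp (fun _ : ℕ => ℝ) 1) :
    HasSum (fun n => |v n|) ‖v‖ := by
  have h := lp.hasSum_norm (p := 1) (by norm_num) v
  simpa using h

/-- M1: independence patterns give an isomorphic copy of `ℓ¹`. -/
theorem hasL1_of_patterns {X : Type} [NormedAddCommGroup X] [NormedSpace ℝ X] [CompleteSpace X]
    (f : ℕ → X) (r R a b : ℝ) (hab : a < b) (hf : ∀ n, ‖f n‖ ≤ r)
    (h : ∀ (n : ℕ) (σ : ℕ → Bool), ∃ φ : X →L[ℝ] ℝ, ‖φ‖ ≤ R ∧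
      ∀ i < n, (σ i = true → b < φ (f i)) ∧ (σ i = false → φ (f i) < a)) :
    HasL1 X := by
  have hr : 0 ≤ r := (norm_nonneg _).trans (hf 0)
  have hR : 0 < R := by
    obtain ⟨φ, hφ, h1⟩ := h 1 (fun _ => true)
    obtain ⟨φ', hφ', h2⟩ := h 1 (fun _ => false)
    have h1' := (h1 0 (by norm_num)).1 rfl
    have h2' := (h2 0 (by norm_num)).2 rfl
    have h0 : 0 ≤ R := (norm_nonneg _).trans hφ
    rcases h0.lt_or_eq with h3 | h3
    · exact h3
    · rw [← h3] at hφ hφ'
      have e1 : φ = 0 := norm_le_zero_iff.1 hφ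
      have e2 : φ' = 0 := norm_le_zero_iff.1 hφ'
      rw [e1] at h1'
      rw [e2] at h2'
      simp at h1' h2'
      linarith
  let T₀ : lp (fun _ : ℕ => ℝ) 1 →ₗ[ℝ] X :=
    { toFun := fun v => ∑' n, v n • f n
      map_add' := fun v w => by
        rw [← (patterns_summable f r hf v).tsum_add (patterns_summable f r hf w)]
        refine tsum_congr fun n => ?_
        rw [lp.coeFn_add, Pi.add_apply, add_smul]
      map_smul' := fun c v => by
        rw [RingHom.id_apply, ← (patterns_summable f r hf v).tsum_const_smul]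
        refine tsum_congr fun n => ?_
        rw [lp.coeFn_smul, Pi.smul_apply, smul_eq_mul, mul_smul] }
  have hT₀ : ∀ v, T₀ v = ∑' n, v n • f n := fun v => rfl
  have hbd : ∀ v, ‖T₀ v‖ ≤ r * ‖v‖ := by
    intro v
    rw [hT₀]
    have h1 := (patterns_norm v).mul_left r
    refine tsum_of_norm_bounded h1 fun n => ?_
    rw [norm_smul, Real.norm_eq_abs, mul_comm]
    exact mul_le_mul_of_nonneg_right (hf n) (abs_nonneg _)
  refine ⟨T₀.mkContinuous r hbd, (b - a) / (2 * R), by
    have : 0 < b - a := by linarith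
    positivity, fun v => ?_⟩
  rw [LinearMap.mkContinuous_apply]
  -- partial estimates
  have key : ∀ n : ℕ, (b - a) * ∑ i ∈ Finset.range n, |v i| ≤
      2 * R * (‖T₀ v‖ + r * (‖v‖ - ∑ i ∈ Finset.range n, |v i|)) := by
    intro n
    obtain ⟨φ, hφ, h1⟩ := h n (fun i => decide (0 ≤ v i))
    obtain ⟨φ', hφ', h2⟩ := h n (fun i => !decide (0 ≤ v i))
    set ψ : X →L[ℝ] ℝ := φ - φ' with hψ
    have hψn : ‖ψ‖ ≤ 2 * R := by
      calc ‖ψ‖ ≤ ‖φ‖ + ‖φ'‖ := norm_sub_le _ _
        _ ≤ 2 * R := by linarith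
    have h3 : ∀ i < n, (b - a) * |v i| ≤ v i * ψ (f i) := by
      intro i hi
      have e : ψ (f i) = φ (f i) - φ' (f i) := rfl
      by_cases hv : 0 ≤ v i
      · have e1 := (h1 i hi).1 (by simpa using hv)
        have e2 := (h2 i hi).2 (by simpa using hv)
        rw [abs_of_nonneg hv, e, mul_comm]
        exact mul_le_mul_of_nonneg_left (by linarith) hv
      · have hv' : v i < 0 := not_le.1 hv
        have e1 := (h1 i hi).2 (by simpa using hv')
        have e2 := (h2 i hi).1 (by simpa using hv')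
        rw [abs_of_neg hv', e]
        nlinarith
    have hs := patterns_summable f r hf v
    have h4 : T₀ v = ∑ i ∈ Finset.range n, v i • f i + ∑' i, v (i + n) • f (i + n) := by
      rw [hT₀, ← hs.sum_add_tsum_nat_add n]
    have h5 : ‖∑' i, v (i + n) • f (i + n)‖ ≤ r * (‖v‖ - ∑ i ∈ Finset.range n, |v i|) := by
      have h6 : HasSum (fun i => |v (i + n)|) (‖v‖ - ∑ i ∈ Finset.range n, |v i|) :=
        (hasSum_nat_add_iff' (f := fun i => |v i|) n).2 (patterns_norm v)
      refine tsum_of_norm_bounded (h6.mul_left r) fun i => ?_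
      rw [norm_smul, Real.norm_eq_abs, mul_comm]
      exact mul_le_mul_of_nonneg_right (hf _) (abs_nonneg _)
    have h7 : (b - a) * ∑ i ∈ Finset.range n, |v i| ≤ ψ (∑ i ∈ Finset.range n, v i • f i) := by
      rw [map_sum, Finset.mul_sum]
      refine Finset.sum_le_sum fun i hi => ?_
      rw [map_smul, smul_eq_mul]
      exact h3 i (Finset.mem_range.1 hi)
    have h8 : ∑ i ∈ Finset.range n, v i • f i = T₀ v - ∑' i, v (i + n) • f (i + n) := by
      rw [h4]; abel
    have h9 : ψ (∑ i ∈ Finset.range n, v i • f i) ≤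
        2 * R * (‖T₀ v‖ + r * (‖v‖ - ∑ i ∈ Finset.range n, |v i|)) := by
      calc ψ (∑ i ∈ Finset.range n, v i • f i) ≤ ‖ψ (∑ i ∈ Finset.range n, v i • f i)‖ :=
            le_abs_self _
        _ ≤ ‖ψ‖ * ‖∑ i ∈ Finset.range n, v i • f i‖ := ψ.le_opNorm _
        _ ≤ (2 * R) * (‖T₀ v‖ + r * (‖v‖ - ∑ i ∈ Finset.range n, |v i|)) := by
            gcongr
            rw [h8]
            exact (norm_sub_le _ _).trans (by linarith)
    exact h7.trans h9
  have hlim : Filter.Tendsto (fun n => ∑ i ∈ Finset.range n, |v i|) Filter.atTop (nhds ‖v‖) :=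
    (patterns_norm v).tendsto_sum_nat
  have h10 : (b - a) * ‖v‖ ≤ 2 * R * (‖T₀ v‖ + r * (‖v‖ - ‖v‖)) := by
    refine le_of_tendsto_of_tendsto' (hlim.const_mul (b - a)) ?_ key
    exact ((((tendsto_const_nhds.sub hlim).const_mul r).const_add _).const_mul _)
  rw [div_mul_eq_mul_div, div_le_iff₀ (by positivity)]
  linarith

end Pool.Agent.H.MP_36cdb9_an
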