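import Pool.Agent.H.MP_36cdb9_an.Density
import Pool.Agent.H.MP_36cdb9_an.Patterns

set_option autoImplicit false

open MeasureTheory

namespace Pool.Agent.H.MP_36cdb9_an

/-- Helly's lemma, in the form of strict upper bounds. -/
theorem haydon_helly {X : Type} [NormedAddCommGroup X] [NormedSpace ℝ X]
    {ι : Type} [Fintype ι] (F : (X →L[ℝ] ℝ) →L[ℝ] ℝ) (ψ : ι → X →L[ℝ] ℝ) (c : ι → ℝ)
    (h : ∀ i, F (ψ i) < c i) :
    ∃ f : X, ‖f‖ ≤ ‖F‖ + 1 ∧ ∀ i, ψ i f < c i := by
  classical
  set r : ℝ := ‖F‖ + 1 with hr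
  have hr0 : 0 < r := by positivity
  let T : X →L[ℝ] (ι → ℝ) := ContinuousLinearMap.pi ψ
  let C : Set (ι → ℝ) := T '' Metric.closedBall (0 : X) r
  have hC : Convex ℝ C := (convex_closedBall (0 : X) r).linear_image (T : X →ₗ[ℝ] (ι → ℝ))
  have hmem : (fun i => F (ψ i)) ∈ closure C := by
    by_contra hnot
    obtain ⟨g, u, hgu, hug⟩ := geometric_hahn_banach_closed_point hC.closure isClosed_closure hnot
    -- the functional `g` is given by weights `t`
    let t : ι → ℝ := fun i => g (Pi.single i 1)
    have hg : ∀ y : ι → ℝ, g y = ∑ i, y i * t i := by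
      intro y
      conv_lhs => rw [pi_eq_sum_univ' y]
      rw [map_sum]
      refine Finset.sum_congr rfl fun i _ => ?_
      rw [map_smul, smul_eq_mul]
    let Ψ : X →L[ℝ] ℝ := ∑ i, t i • ψ i
    have hΨ : ∀ x, g (T x) = Ψ x := by
      intro x
      rw [hg]
      simp [Ψ, T, mul_comm]
    have hFΨ : g (fun i => F (ψ i)) = F Ψ := by
      rw [hg]
      simp [Ψ, map_sum, mul_comm]
    have hball : ∀ x : X, ‖x‖ ≤ r → Ψ x < u := by
      intro x hx
      rw [← hΨ]
      exact hgu _ (subset_closure ⟨x, by simpa using hx, rfl⟩)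
    have hu0 : 0 < u := by
      have := hball 0 (by simpa using hr0.le)
      simpa using this
    have hnorm : ‖Ψ‖ ≤ u / r := by
      refine ContinuousLinearMap.opNorm_le_of_unit_norm (by positivity) ?_
      intro x hx
      have h1 := hball (r • x) (by rw [norm_smul, hx, mul_one, Real.norm_of_nonneg hr0.le])
      have h2 := hball (-(r • x)) (by
        rw [norm_neg, norm_smul, hx, mul_one, Real.norm_of_nonneg hr0.le])
      rw [map_neg] at h2
      rw [map_smul, smul_eq_mul] at h1 h2
      rw [Real.norm_eq_abs, le_div_iff₀ hr0]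
      rcases abs_cases (Ψ x) with ⟨h, _⟩ | ⟨h, _⟩ <;> rw [h] <;> linarith
    have h3 : F Ψ ≤ ‖F‖ * ‖Ψ‖ := (le_abs_self _).trans (F.le_opNorm Ψ)
    have h4 : ‖F‖ * ‖Ψ‖ ≤ r * (u / r) := by
      refine mul_le_mul (by rw [hr]; linarith) hnorm (norm_nonneg _) hr0.le
    have h5 : r * (u / r) = u := by field_simp
    rw [hFΨ] at hug
    linarith
  have hU : IsOpen {y : ι → ℝ | ∀ i, y i < c i} := by
    have : {y : ι → ℝ | ∀ i, y i < c i} = ⋂ i, {y : ι → ℝ | y i < c i} := by
      ext y; simp
    rw [this]
    exact isOpen_iInter_of_finite fun i => isOpen_lt (continuous_apply i) continuous_const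
  obtain ⟨y, hy, hyC⟩ := mem_closure_iff.1 hmem _ hU h
  obtain ⟨f, hf, rfl⟩ := hyC
  exact ⟨f, by simpa using hf, fun i => hy i⟩

/-- the partial barycenter functional `x ↦ ∫_A ev s x dμ` -/
theorem haydon_exists_m {X : Type} [NormedAddCommGroup X] [NormedSpace ℝ X]
    {S : Type} [TopologicalSpace S] [CompactSpace S] [PolishSpace S] [MeasurableSpace S]
    [BorelSpace S] (ev : S → X →L[ℝ] ℝ) (hev : ∀ x, Continuous fun s => ev s x)
    (R : ℝ) (hR : ∀ s, ‖ev s‖ ≤ R)
    (μ : Measure S) [IsProbabilityMeasure μ] (A : Set S) :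
    ∃ m : X →L[ℝ] ℝ, (∀ x, m x = ∫ s in A, ev s x ∂μ) ∧ ‖m‖ ≤ R * (μ A).toReal := by
  have hne : Nonempty S := by
    by_contra h
    rw [not_nonempty_iff] at h
    have h1 : μ Set.univ = 1 := measure_univ
    rw [Set.univ_eq_empty_iff.2 h, measure_empty] at h1
    exact zero_ne_one h1
  have hR0 : 0 ≤ R := (norm_nonneg _).trans (hR hne.some)
  have hint : ∀ x, Integrable (fun s => ev s x) (μ.restrict A) := by
    intro x
    refine Integrable.of_bound (hev x).aestronglyMeasurable (R * ‖x‖) (Filter.Eventually.of_forall ?_)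
    intro s
    exact (ev s).le_of_opNorm_le (hR s) x
  let m0 : X →ₗ[ℝ] ℝ :=
    { toFun := fun x => ∫ s in A, ev s x ∂μ
      map_add' := by
        intro x y
        simp only [map_add]
        exact integral_add (hint x) (hint y)
      map_smul' := by
        intro a x
        simp only [map_smul, smul_eq_mul, RingHom.id_apply]
        exact integral_const_mul a _ }
  have hbd : ∀ x, ‖m0 x‖ ≤ (R * (μ A).toReal) * ‖x‖ := by
    intro x
    have h1 : ‖∫ s in A, ev s x ∂μ‖ ≤ (R * ‖x‖) * (μ.restrict A).real Set.univ :=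
      norm_integral_le_of_norm_le_const (Filter.Eventually.of_forall fun s =>
        (ev s).le_of_opNorm_le (hR s) x)
    have h2 : (μ.restrict A).real Set.univ = (μ A).toReal := by
      simp [Measure.real]
    rw [h2] at h1
    calc ‖m0 x‖ = ‖∫ s in A, ev s x ∂μ‖ := rfl
      _ ≤ (R * ‖x‖) * (μ A).toReal := h1
      _ = _ := by ring
  refine ⟨m0.mkContinuous (R * (μ A).toReal) hbd, fun x => rfl, ?_⟩
  exact m0.mkContinuous_norm_le (mul_nonneg hR0 ENNReal.toReal_nonneg) hbd

/-- M4 (Haydon): if `z` is the barycenter of a probability measure carried by the closed set `K`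
and some `F ∈ X**` is larger at `z` than on `K`, then `ℓ¹` embeds in `X`. -/
theorem hasL1_of_separated {X : Type} [NormedAddCommGroup X] [NormedSpace ℝ X] [CompleteSpace X]
    {S : Type} [TopologicalSpace S] [CompactSpace S] [PolishSpace S] [MeasurableSpace S]
    [BorelSpace S] (ev : S → X →L[ℝ] ℝ) (hev : ∀ x, Continuous fun s => ev s x)
    (R : ℝ) (hR : ∀ s, ‖ev s‖ ≤ R) (K : Set S) (hK : IsClosed K)
    (μ : Measure S) [IsProbabilityMeasure μ] (hμ : μ Kᶜ = 0)
    (z : X →L[ℝ] ℝ) (hz : ∀ x, z x = ∫ s, ev s x ∂μ)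
    (F : (X →L[ℝ] ℝ) →L[ℝ] ℝ) (b : ℝ) (hb : ∀ s ∈ K, F (ev s) ≤ b) (hlt : b < F z) :
    HasL1 X := by
  classical
  have hne : Nonempty S := by
    by_contra h
    rw [not_nonempty_iff] at h
    have h1 : μ Set.univ = 1 := measure_univ
    rw [Set.univ_eq_empty_iff.2 h, measure_empty] at h1
    exact zero_ne_one h1
  have hR0 : 0 ≤ R := (norm_nonneg _).trans (hR hne.some)
  have hint : ∀ (x : X) (A : Set S), Integrable (fun s => ev s x) (μ.restrict A) := by
    intro x A
    refine Integrable.of_bound (hev x).aestronglyMeasurable (R * ‖x‖) (Filter.Eventually.of_forall ?_)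
    intro s
    exact (ev s).le_of_opNorm_le (hR s) x
  choose m hm hmn using fun A : Set S => haydon_exists_m ev hev R hR μ A
  -- the density
  obtain ⟨φ, hφm, hφb, hφ⟩ := exists_density μ (fun A => F (m A)) (‖F‖ * R)
    (mul_nonneg (norm_nonneg F) hR0)
    (by
      intro s t hs ht hst
      have : m (s ∪ t) = m s + m t := by
        ext x
        rw [add_apply, hm, hm, hm]
        exact setIntegral_union hst ht (hint x s) (hint x t)
      simp only [this, map_add])
    (by
      intro s hs
      calc |F (m s)| ≤ ‖F‖ * ‖m s‖ := F.le_opNorm _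
        _ ≤ ‖F‖ * (R * (μ s).toReal) := by
          exact mul_le_mul_of_nonneg_left (hmn s) (norm_nonneg F)
        _ = _ := by ring)
  have hzm : m Set.univ = z := by
    ext x
    rw [hm, hz, Measure.restrict_univ]
  have hFz : F z = ∫ s, φ s ∂μ := by
    have := hφ Set.univ MeasurableSet.univ
    simp only [Measure.restrict_univ] at this
    rw [← this, hzm]
  have hφint : ∀ A : Set S, Integrable φ (μ.restrict A) := fun A =>
    Integrable.of_bound hφm.aestronglyMeasurable _ (Filter.Eventually.of_forall fun s => hφb s)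
  -- intermediate levels
  obtain ⟨b', hbb', hb'z⟩ := exists_between hlt
  obtain ⟨a'', hb'a'', ha''z⟩ := exists_between hb'z
  obtain ⟨a', ha''a', ha'z⟩ := exists_between ha''z
  set S1 : Set S := {s | a' < φ s} ∩ K with hS1
  have hS1m : MeasurableSet S1 := (measurableSet_lt measurable_const hφm).inter hK.measurableSet
  have hS1pos : 0 < μ S1 := by
    rw [pos_iff_ne_zero]
    intro h0
    have hae : ∀ᵐ s ∂μ, φ s ≤ a' := by
      have h1 : μ ({s | a' < φ s}) = 0 := by
        refine le_antisymm ?_ zero_le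
        calc μ ({s | a' < φ s}) ≤ μ (S1 ∪ Kᶜ) := by
              refine measure_mono ?_
              intro s hs
              by_cases hsK : s ∈ K
              · exact Or.inl ⟨hs, hsK⟩
              · exact Or.inr hsK
          _ ≤ μ S1 + μ Kᶜ := measure_union_le _ _
          _ = 0 := by rw [h0, hμ, add_zero]
      rw [ae_iff]
      simpa using h1
    have h2 : ∫ s, φ s ∂μ ≤ ∫ s, a' ∂μ := by
      have := hφint Set.univ
      rw [Measure.restrict_univ] at this
      exact integral_mono_ae this (integrable_const _) hae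
    simp at h2
    linarith
  -- the relative support
  set S2 : Set S := S1 ∩ (μ.restrict S1).support with hS2
  have hS2m : MeasurableSet S2 := hS1m.inter Measure.isClosed_support.measurableSet
  have hS12 : μ (S1 \ S2) = 0 := by
    have h1 : (μ.restrict S1) ((μ.restrict S1).support)ᶜ = 0 := Measure.measure_compl_support
    rw [Measure.restrict_apply Measure.isOpen_compl_support.measurableSet] at h1
    refine le_antisymm ((measure_mono ?_).trans h1.le) zero_le
    intro s hs
    refine ⟨?_, hs.1⟩
    intro hs'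
    exact hs.2 ⟨hs.1, hs'⟩
  have hS2pos : 0 < μ S2 := by
    refine lt_of_lt_of_le hS1pos ?_
    calc μ S1 ≤ μ (S2 ∪ (S1 \ S2)) := by
          refine measure_mono ?_
          intro s hs
          by_cases h : s ∈ S2
          · exact Or.inl h
          · exact Or.inr ⟨hs, h⟩
      _ ≤ μ S2 + μ (S1 \ S2) := measure_union_le _ _
      _ = μ S2 := by rw [hS12, add_zero]
  have hopen : ∀ O : Set S, IsOpen O → (O ∩ S2).Nonempty → 0 < μ (O ∩ S2) := by
    intro O hO hne'
    obtain ⟨s, hsO, hs1, hs2⟩ := hne'
    have h1 := (Measure.mem_support_iff_forall s).1 hs2 O (hO.mem_nhds hsO)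
    rw [Measure.restrict_apply hO.measurableSet] at h1
    refine lt_of_lt_of_le h1 ?_
    calc μ (O ∩ S1) ≤ μ ((O ∩ S2) ∪ (S1 \ S2)) := by
          refine measure_mono ?_
          intro s hs
          by_cases h : s ∈ S2
          · exact Or.inl ⟨hs.1, h⟩
          · exact Or.inr ⟨hs.2, h⟩
      _ ≤ μ (O ∩ S2) + μ (S1 \ S2) := measure_union_le _ _
      _ = μ (O ∩ S2) := by rw [hS12, add_zero]
  -- on open pieces of `S2` the functional `F` exceeds `a''`
  have hFm : ∀ O : Set S, IsOpen O → (O ∩ S2).Nonempty →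
      a'' * (μ (O ∩ S2)).toReal < F (m (O ∩ S2)) := by
    intro O hO hne'
    have hpos := hopen O hO hne'
    have hmeas : MeasurableSet (O ∩ S2) := hO.measurableSet.inter hS2m
    have h1 : F (m (O ∩ S2)) = ∫ s in O ∩ S2, φ s ∂μ := hφ _ hmeas
    have hpos' : 0 < (μ (O ∩ S2)).toReal := ENNReal.toReal_pos hpos.ne' (measure_ne_top _ _)
    have h2 : ∫ s in O ∩ S2, a' ∂μ ≤ ∫ s in O ∩ S2, φ s ∂μ := by
      refine setIntegral_mono_on (integrable_const _) (hφint _) hmeas ?_
      intro s hs
      exact hs.2.1.1.le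
    rw [h1]
    refine lt_of_lt_of_le ?_ h2
    rw [setIntegral_const, smul_eq_mul, mul_comm]
    exact mul_lt_mul_of_pos_left ha''a' hpos'
  -- the induction
  let r : ℝ := ‖F‖ + 1
  let Good : ℕ → (ℕ → X) → Prop := fun n f =>
    (∀ i, ‖f i‖ ≤ r) ∧ ∀ σ : ℕ → Bool, ∃ s ∈ S2, ∀ i < n,
      (σ i = true → a'' < ev s (f i)) ∧ (σ i = false → ev s (f i) < b')
  have hstep : ∀ n f, Good n f → ∃ x : X, Good (n + 1) (Function.update f n x) := by
    intro n f hf
    obtain ⟨hfr, hfg⟩ := hf
    -- open sets
    let O : (Fin n → Bool) → Set S := fun τ => {s | ∀ i : Fin n,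
      (τ i = true → a'' < ev s (f i)) ∧ (τ i = false → ev s (f i) < b')}
    have hOopen : ∀ τ, IsOpen (O τ) := by
      intro τ
      have : O τ = ⋂ i : Fin n, {s | (τ i = true → a'' < ev s (f i)) ∧
          (τ i = false → ev s (f i) < b')} := by
        ext s; simp [O]
      rw [this]
      refine isOpen_iInter_of_finite fun i => ?_
      cases hτ : τ i
      · have : {s | (false = true → a'' < ev s (f i)) ∧ (false = false → ev s (f i) < b')} =
            {s | ev s (f i) < b'} := by ext s; simp
        rw [this]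
        exact isOpen_lt (hev _) continuous_const
      · have : {s | (true = true → a'' < ev s (f i)) ∧ (true = false → ev s (f i) < b')} =
            {s | a'' < ev s (f i)} := by ext s; simp
        rw [this]
        exact isOpen_lt continuous_const (hev _)
    have hOne : ∀ τ, (O τ ∩ S2).Nonempty := by
      intro τ
      obtain ⟨s, hs, hsi⟩ := hfg (fun i => if h : i < n then τ ⟨i, h⟩ else true)
      refine ⟨s, ?_, hs⟩
      intro i
      have := hsi i i.2
      simpa using this
    choose k hkO hkS using hOne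
    obtain ⟨x, hxr, hx⟩ := haydon_helly F
      (fun i : (Fin n → Bool) ⊕ (Fin n → Bool) =>
        Sum.elim (fun τ => ev (k τ)) (fun τ => -(m (O τ ∩ S2))) i)
      (Sum.elim (fun _ => b') (fun τ => -(a'' * (μ (O τ ∩ S2)).toReal)))
      (by
        rintro (τ | τ)
        · simp only [Sum.elim_inl]
          exact lt_of_le_of_lt (hb _ (hkS τ).1.2) hbb'
        · simp only [Sum.elim_inr, map_neg]
          exact neg_lt_neg (hFm _ (hOopen τ) ⟨_, hkO τ, hkS τ⟩))
    refine ⟨x, ?_, ?_⟩
    · intro i
      by_cases hi : i = n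
      · subst hi; simpa using hxr
      · rw [Function.update_of_ne hi]; exact hfr i
    · intro σ
      let τ : Fin n → Bool := fun i => σ i
      have hbase : ∀ s ∈ O τ, ∀ i < n, (σ i = true → a'' < ev s (Function.update f n x i)) ∧
          (σ i = false → ev s (Function.update f n x i) < b') := by
        intro s hs i hi
        rw [Function.update_of_ne hi.ne]
        exact hs ⟨i, hi⟩
      cases hσ : σ n
      · -- value false: take the point `k τ`
        refine ⟨k τ, hkS τ, ?_⟩
        intro i hi
        rcases Nat.lt_succ_iff_lt_or_eq.1 hi with hi' | rfl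
        · exact hbase _ (hkO τ) i hi'
        · refine ⟨fun h => by simp [hσ] at h, fun _ => ?_⟩
          have := hx (Sum.inl τ)
          simpa using this
      · -- value true: average
        have h1 := hx (Sum.inr τ)
        simp only [Sum.elim_inr, neg_apply] at h1
        rw [hm] at h1
        have h2 : a'' * (μ (O τ ∩ S2)).toReal < ∫ s in O τ ∩ S2, ev s x ∂μ := by linarith
        have h3 : ∃ s ∈ O τ ∩ S2, a'' < ev s x := by
          by_contra hcon
          push Not at hcon
          have h4 : ∫ s in O τ ∩ S2, ev s x ∂μ ≤ ∫ s in O τ ∩ S2, a'' ∂μ :=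
            setIntegral_mono_on (hint x _) (integrable_const _)
              ((hOopen τ).measurableSet.inter hS2m) hcon
          rw [setIntegral_const, smul_eq_mul, mul_comm] at h4
          exact absurd h2 (not_lt.2 h4)
        obtain ⟨s, ⟨hsO, hsS⟩, hs⟩ := h3
        refine ⟨s, hsS, ?_⟩
        intro i hi
        rcases Nat.lt_succ_iff_lt_or_eq.1 hi with hi' | rfl
        · exact hbase _ hsO i hi'
        · refine ⟨fun _ => ?_, fun h => by simp [hσ] at h⟩
          simpa using hs
  have hgood0 : Good 0 (fun _ => 0) := by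
    refine ⟨fun i => by simp only [norm_zero]; positivity, fun σ => ?_⟩
    obtain ⟨s, hs⟩ := nonempty_of_measure_ne_zero hS2pos.ne'
    exact ⟨s, hs, fun i hi => absurd hi (Nat.not_lt_zero i)⟩
  choose! step hstep' using hstep
  let G : ℕ → (ℕ → X) := fun n => Nat.rec (fun _ => 0) (fun n f => Function.update f n (step n f)) n
  have hG0 : G 0 = fun _ => 0 := rfl
  have hGs : ∀ n, G (n + 1) = Function.update (G n) n (step n (G n)) := fun n => rfl
  have hGgood : ∀ n, Good n (G n) := by
    intro n
    induction n with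
    | zero => rw [hG0]; exact hgood0
    | succ n ih => rw [hGs]; exact hstep' n _ ih
  have hGstable : ∀ n i, i < n → G n i = G (i + 1) i := by
    intro n
    induction n with
    | zero => intro i hi; exact absurd hi (Nat.not_lt_zero i)
    | succ n ih =>
      intro i hi
      rcases Nat.lt_succ_iff_lt_or_eq.1 hi with hi' | rfl
      · rw [hGs, Function.update_of_ne hi'.ne]
        exact ih i hi'
      · rfl
  refine hasL1_of_patterns (fun i => G (i + 1) i) r R b' a'' hb'a'' (fun n => (hGgood (n + 1)).1 n) ?_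
  intro n σ
  obtain ⟨s, hs, hsi⟩ := (hGgood n).2 σ
  refine ⟨ev s, hR s, ?_⟩
  intro i hi
  have := hsi i hi
  rw [hGstable n i hi] at this
  exact this

end Pool.Agent.H.MP_36cdb9_an
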