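import Pool.Agent.H.MP_36cdb9_an.Defs

set_option autoImplicit false

namespace Pool.Agent.H.MP_36cdb9_an

/-- M6: a minimal closed set with the same support function; its nonempty relatively open
subsets contain slices. -/
theorem exists_minimal {X : Type} [NormedAddCommGroup X] [NormedSpace ℝ X]
    {S : Type} [TopologicalSpace S] [CompactSpace S] [T2Space S]
    (ev : S → X →L[ℝ] ℝ) (hev : ∀ x, Continuous fun s => ev s x)
    (K : Set S) (hK : IsClosed K) (hne : K.Nonempty) :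
    ∃ K₁ : Set S, K₁ ⊆ K ∧ IsClosed K₁ ∧ K₁.Nonempty ∧
      (∀ s ∈ K, ∀ x, ∃ t ∈ K₁, ev s x ≤ ev t x) ∧
      (∀ O : Set S, IsOpen O → (O ∩ K₁).Nonempty →
        ∃ (y : X) (c : ℝ), (∃ s ∈ K₁, c < ev s y) ∧ ∀ s ∈ K₁, c < ev s y → s ∈ O) := by
  let P : Set (Set S) := {A | IsClosed A ∧ ∀ s ∈ K, ∀ x, ∃ t ∈ A, ev s x ≤ ev t x}
  have hKP : K ∈ P := ⟨hK, fun s hs x => ⟨s, hs, le_rfl⟩⟩
  obtain ⟨K₁, hK₁K, hmin⟩ := zorn_superset_nonempty P (by
    intro c hc hchain hcne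
    refine ⟨⋂₀ c, ⟨isClosed_sInter fun A hA => (hc hA).1, ?_⟩, fun A hA =>
      Set.sInter_subset_of_mem hA⟩
    intro s hs x
    have hclosed : IsClosed {t : S | ev s x ≤ ev t x} := isClosed_le continuous_const (hev x)
    have hne' : Nonempty c := hcne.to_subtype
    obtain ⟨t, ht⟩ := IsCompact.nonempty_iInter_of_directed_nonempty_isCompact_isClosed
      (fun A : c => (A : Set S) ∩ {t : S | ev s x ≤ ev t x}) (by
        intro A B
        rcases hchain.total A.2 B.2 with h | h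
        · exact ⟨A, subset_rfl, Set.inter_subset_inter_left _ h⟩
        · exact ⟨B, Set.inter_subset_inter_left _ h, subset_rfl⟩)
      (fun A => by
        obtain ⟨t, ht, ht'⟩ := (hc A.2).2 s hs x
        exact ⟨t, ht, ht'⟩)
      (fun A => ((hc A.2).1.inter hclosed).isCompact)
      (fun A => (hc A.2).1.inter hclosed)
    rw [Set.mem_iInter] at ht
    refine ⟨t, ?_, ?_⟩
    · rw [Set.mem_sInter]
      intro A hA
      exact (ht ⟨A, hA⟩).1
    · obtain ⟨A, hA⟩ := hcne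
      exact (ht ⟨A, hA⟩).2) K hKP
  have hK₁ : IsClosed K₁ := hmin.1.1
  have hdom := hmin.1.2
  obtain ⟨s₀, hs₀⟩ := hne
  have hne₁ : K₁.Nonempty := by
    obtain ⟨t, ht, _⟩ := hdom s₀ hs₀ 0
    exact ⟨t, ht⟩
  refine ⟨K₁, hK₁K, hK₁, hne₁, hdom, ?_⟩
  intro O hO hOne
  rcases (K₁ \ O).eq_empty_or_nonempty with hA | hA
  · refine ⟨0, -1, ?_, ?_⟩
    · obtain ⟨t, ht⟩ := hne₁
      exact ⟨t, ht, by simp⟩
    · intro s hs _
      by_contra hsO
      have : s ∈ K₁ \ O := ⟨hs, hsO⟩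
      rw [hA] at this
      exact this
  · have hAc : IsClosed (K₁ \ O) := hK₁.sdiff hO
    have hnot : K₁ \ O ∉ P := by
      intro hP
      have h1 : K₁ ⊆ K₁ \ O := hmin.2 hP Set.sdiff_subset
      obtain ⟨s, hsO, hsK⟩ := hOne
      exact (h1 hsK).2 hsO
    have h2 : ¬ ∀ s ∈ K, ∀ x, ∃ t ∈ K₁ \ O, ev s x ≤ ev t x := fun h => hnot ⟨hAc, h⟩
    push Not at h2
    obtain ⟨s, hs, y, hy⟩ := h2
    obtain ⟨t₀, ht₀, ht₀max⟩ := hAc.isCompact.exists_isMaxOn hA (hev y).continuousOn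
    refine ⟨y, ev t₀ y, ?_, ?_⟩
    · obtain ⟨t, ht, hst⟩ := hdom s hs y
      exact ⟨t, ht, lt_of_lt_of_le (hy t₀ ht₀) hst⟩
    · intro s' hs' hlt
      by_contra hs'O
      exact absurd (ht₀max ⟨hs', hs'O⟩) (not_le.2 hlt)

end Pool.Agent.H.MP_36cdb9_an
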