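import Pool.Agent.H.MP_36cdb9_an.Defs

set_option autoImplicit false

namespace Pool.Agent.H.MP_36cdb9_an

/-- averages of nonempty multisets with elements in `A` -/
def avgSet {E : Type} [NormedAddCommGroup E] [NormedSpace ℝ E] (A : Set E) : Set E :=
  {q | ∃ m : Multiset E, 0 < Multiset.card m ∧ (∀ z ∈ m, z ∈ A) ∧
    q = ((Multiset.card m : ℕ) : ℝ)⁻¹ • m.sum}

theorem onestep_avg_comb {E : Type} [NormedAddCommGroup E] [NormedSpace ℝ E] (A : Set E)
    (x y : E) (hx : x ∈ avgSet A) (hy : y ∈ avgSet A) (a b : ℕ) (hab : 0 < a + b) :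
    ((a : ℝ) / (a + b)) • x + ((b : ℝ) / (a + b)) • y ∈ avgSet A := by
  obtain ⟨m₁, h1, h1A, rfl⟩ := hx
  obtain ⟨m₂, h2, h2A, rfl⟩ := hy
  refine ⟨(a * Multiset.card m₂) • m₁ + (b * Multiset.card m₁) • m₂, ?_, ?_, ?_⟩
  · rw [Multiset.card_add, Multiset.card_nsmul, Multiset.card_nsmul]
    rcases Nat.eq_zero_or_pos a with ha | ha
    · have hb : 0 < b := by omega
      have : 0 < b * Multiset.card m₁ * Multiset.card m₂ := by positivity
      omega
    · have : 0 < a * Multiset.card m₂ * Multiset.card m₁ := by positivity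
      omega
  · intro z hz
    rw [Multiset.mem_add] at hz
    rcases hz with hz | hz
    · exact h1A z (Multiset.mem_of_mem_nsmul hz)
    · exact h2A z (Multiset.mem_of_mem_nsmul hz)
  · rw [Multiset.sum_add, Multiset.sum_nsmul, Multiset.sum_nsmul, Multiset.card_add,
      Multiset.card_nsmul, Multiset.card_nsmul]
    have hc1 : ((Multiset.card m₁ : ℕ) : ℝ) ≠ 0 := by positivity
    have hc2 : ((Multiset.card m₂ : ℕ) : ℝ) ≠ 0 := by positivity
    have hab' : (a : ℝ) + b ≠ 0 := by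
      have : (0 : ℝ) < (a + b : ℕ) := by exact_mod_cast hab
      push_cast at this
      exact this.ne'
    rw [← Nat.cast_smul_eq_nsmul ℝ, ← Nat.cast_smul_eq_nsmul ℝ, smul_add, smul_smul, smul_smul,
      smul_smul, smul_smul]
    congr 1
    · congr 1
      push_cast
      field_simp
    · congr 1
      push_cast
      field_simp

theorem onestep_closure_convex {E : Type} [NormedAddCommGroup E] [NormedSpace ℝ E] (A : Set E) :
    Convex ℝ (closure (avgSet A)) := by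
  have key : ∀ x ∈ avgSet A, ∀ y ∈ avgSet A, ∀ t : ℝ, 0 ≤ t → t ≤ 1 →
      (1 - t) • x + t • y ∈ closure (avgSet A) := by
    intro x hx y hy t ht0 ht1
    rw [Metric.mem_closure_iff]
    intro δ hδ
    -- approximate t by k / N
    obtain ⟨N, hN⟩ := exists_nat_gt ((‖x‖ + ‖y‖) / δ)
    have hN0 : 0 < N := by
      rcases Nat.eq_zero_or_pos N with h | h
      · subst h
        have : 0 ≤ (‖x‖ + ‖y‖) / δ := by positivity
        simp at hN
        linarith
      · exact h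
    have hNr : (0 : ℝ) < N := by exact_mod_cast hN0
    set k : ℕ := ⌊t * N⌋₊ with hk
    have hk1 : (k : ℝ) ≤ t * N := Nat.floor_le (by positivity)
    have hk2 : t * N < k + 1 := Nat.lt_floor_add_one _
    have hkN : k ≤ N := by
      have : (k : ℝ) ≤ N := by nlinarith
      exact_mod_cast this
    refine ⟨(((N - k : ℕ) : ℝ) / ((N - k : ℕ) + (k : ℕ))) • x +
      ((k : ℝ) / ((N - k : ℕ) + (k : ℕ))) • y,
      onestep_avg_comb A x y hx hy (N - k) k (by omega), ?_⟩
    have h1 : (((N - k : ℕ) : ℝ) + (k : ℕ)) = N := by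
      rw [Nat.cast_sub hkN]; ring
    rw [h1, Nat.cast_sub hkN, dist_eq_norm]
    have h2 : (1 - t) • x + t • y - (((N : ℝ) - k) / N) • x - ((k : ℝ) / N) • y
        = ((k : ℝ) / N - t) • x + (t - (k : ℝ) / N) • y := by
      have : ((N : ℝ) - k) / N = 1 - k / N := by field_simp
      rw [this]
      module
    have h3 : |(k : ℝ) / N - t| ≤ 1 / N := by
      rw [abs_le]
      constructor
      · rw [neg_le_sub_iff_le_add, ← add_div, le_div_iff₀ hNr]
        linarith
      · have : (k : ℝ) / N ≤ t := by rw [div_le_iff₀ hNr]; exact hk1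
        have h4 : 0 ≤ 1 / (N : ℝ) := by positivity
        linarith
    rw [← sub_sub, h2]
    calc ‖((k : ℝ) / N - t) • x + (t - (k : ℝ) / N) • y‖
        ≤ ‖((k : ℝ) / N - t) • x‖ + ‖(t - (k : ℝ) / N) • y‖ := norm_add_le _ _
      _ = |(k : ℝ) / N - t| * ‖x‖ + |(k : ℝ) / N - t| * ‖y‖ := by
          rw [norm_smul, norm_smul, Real.norm_eq_abs, Real.norm_eq_abs, abs_sub_comm t]
      _ ≤ 1 / N * ‖x‖ + 1 / N * ‖y‖ := by gcongr
      _ = (‖x‖ + ‖y‖) / N := by ring
      _ < δ := by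
          rw [div_lt_iff₀ hNr]
          rw [div_lt_iff₀ hδ] at hN
          linarith
  intro x hx y hy s t hs ht hst
  have hs' : s = 1 - t := by linarith
  subst hs'
  have hcont : Continuous (fun p : E × E => (1 - t) • p.1 + t • p.2) := by fun_prop
  have := map_mem_closure₂ (f := fun x y : E => (1 - t) • x + t • y) (u := closure (avgSet A))
    hcont hx hy (fun a ha b hb => key a ha b hb t ht (by linarith))
  rwa [closure_closure] at this

theorem onestep_avg {E : Type} [NormedAddCommGroup E] [NormedSpace ℝ E] (A : Set E) (p : E)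
    (hp : p ∈ closure (convexHull ℝ A)) (δ : ℝ) (hδ : 0 < δ) :
    ∃ (L : ℕ) (c : Fin (L + 1) → E), (∀ l, c l ∈ A) ∧
      ‖p - ((L + 1 : ℕ) : ℝ)⁻¹ • ∑ l, c l‖ < δ := by
  have hsub : convexHull ℝ A ⊆ closure (avgSet A) := by
    refine convexHull_min ?_ (onestep_closure_convex A)
    intro a ha
    exact subset_closure ⟨{a}, by simp, by simpa using ha, by simp⟩
  have hp' : p ∈ closure (avgSet A) := closure_minimal hsub isClosed_closure hp
  rw [Metric.mem_closure_iff] at hp'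
  obtain ⟨q, ⟨m, hm, hmA, rfl⟩, hq⟩ := hp' δ hδ
  obtain ⟨l, rfl⟩ := Quot.exists_rep m
  obtain ⟨L, hL⟩ : ∃ L, l.length = L + 1 := ⟨l.length - 1, by
    have : 0 < l.length := by simpa using hm
    omega⟩
  refine ⟨L, fun i => l.get (Fin.cast hL.symm i), fun i => hmA _ (by
    simp), ?_⟩
  have hsum : ∑ i, l.get (Fin.cast hL.symm i) = l.sum := by
    have h1 : ∑ i : Fin (L + 1), l.get (Fin.cast hL.symm i) = ∑ i : Fin l.length, l.get i := by
      exact Fintype.sum_equiv (finCongr hL.symm) _ _ (fun i => rfl)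
    rw [h1]
    simp [← List.sum_ofFn]
  rw [hsum, ← dist_eq_norm]
  have h3 : (Multiset.sum (Quot.mk _ l : Multiset E)) = l.sum := Multiset.sum_coe l
  have h4 : Multiset.card (Quot.mk _ l : Multiset E) = L + 1 := by
    rw [← hL]; exact Multiset.coe_card l
  rw [h3, h4] at hq
  exact hq

/-- the closed sets of the Baire argument -/
def onestepR {X : Type} [NormedAddCommGroup X] [NormedSpace ℝ X] {S : Type}
    (ev : S → X →L[ℝ] ℝ) (K : Set S) (ε η : ℝ) (L : ℕ) (x : Fin (L + 1) → X) : Set S :=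
  {w | ∃ c : Fin (L + 1) → S, (∀ l, c l ∈ K ∧ ε / 2 ≤ ev (c l) (x l) - ev w (x l)) ∧
    ‖ev w - ((L + 1 : ℕ) : ℝ)⁻¹ • ∑ l, ev (c l)‖ ≤ η}

theorem onestepR_closed {X : Type} [NormedAddCommGroup X] [NormedSpace ℝ X]
    {S : Type} [TopologicalSpace S] [CompactSpace S] [T2Space S]
    (ev : S → X →L[ℝ] ℝ) (hev : ∀ x, Continuous fun s => ev s x)
    (K : Set S) (hK : IsClosed K) (ε η : ℝ) (hη : 0 ≤ η) (L : ℕ) (x : Fin (L + 1) → X) :
    IsClosed (onestepR ev K ε η L x) := by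
  have h1 : onestepR ev K ε η L x = Prod.fst '' {p : S × (Fin (L + 1) → S) |
      (∀ l, p.2 l ∈ K ∧ ε / 2 ≤ ev (p.2 l) (x l) - ev p.1 (x l)) ∧
      ∀ y : X, |ev p.1 y - ((L + 1 : ℕ) : ℝ)⁻¹ * ∑ l, ev (p.2 l) y| ≤ η * ‖y‖} := by
    ext w
    simp only [onestepR, Set.mem_ofPred_eq, Set.mem_image, Prod.exists, exists_and_right,
      exists_eq_right]
    constructor
    · rintro ⟨c, h1, h2⟩
      refine ⟨c, h1, fun y => ?_⟩
      have := (ContinuousLinearMap.opNorm_le_iff hη).1 h2 y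
      simpa [Real.norm_eq_abs, sum_apply] using this
    · rintro ⟨c, h1, h2⟩
      refine ⟨c, h1, (ContinuousLinearMap.opNorm_le_iff hη).2 fun y => ?_⟩
      have := h2 y
      simpa [Real.norm_eq_abs, sum_apply] using this
  rw [h1]
  refine isClosedMap_fst_of_compactSpace _ ?_
  rw [Set.ofPred_and]
  refine IsClosed.inter ?_ ?_
  · rw [Set.ofPred_forall]
    refine isClosed_iInter fun l => ?_
    rw [Set.ofPred_and]
    refine IsClosed.inter ?_ ?_
    · exact hK.preimage ((continuous_apply l).comp continuous_snd)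
    · refine isClosed_le continuous_const ?_
      exact ((hev (x l)).comp ((continuous_apply l).comp continuous_snd)).sub
        ((hev (x l)).comp continuous_fst)
  · rw [Set.ofPred_forall]
    refine isClosed_iInter fun y => ?_
    refine isClosed_le ?_ continuous_const
    refine Continuous.abs (((hev y).comp continuous_fst).sub (continuous_const.mul ?_))
    exact continuous_finsetSum _ fun l _ =>
      (hev y).comp ((continuous_apply l).comp continuous_snd)

theorem onestep_dense {X : Type} [NormedAddCommGroup X] [NormedSpace ℝ X]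
    [TopologicalSpace.SeparableSpace X] :
    ∃ d : ℕ → X, (∀ n, ‖d n‖ ≤ 1) ∧ ∀ (v : X →L[ℝ] ℝ) (ε : ℝ), 0 < ε → ε ≤ ‖v‖ →
      ∃ n, ε / 2 ≤ v (d n) := by
  have : SecondCountableTopology X := UniformSpace.secondCountable_of_separable X
  have : Nonempty (Metric.closedBall (0 : X) 1) := ⟨⟨0, by simp⟩⟩
  refine ⟨fun n => (TopologicalSpace.denseSeq (Metric.closedBall (0 : X) 1) n : X), ?_, ?_⟩
  · intro n
    exact mem_closedBall_zero_iff.1 (TopologicalSpace.denseSeq (Metric.closedBall (0 : X) 1) n).2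
  · intro v ε hε hv
    obtain ⟨x, hx1, hx2⟩ := v.exists_lt_apply_of_lt_opNorm (r := ε / 2) (by linarith)
    -- choose the sign
    obtain ⟨x', hx'1, hx'2⟩ : ∃ x' : X, ‖x'‖ < 1 ∧ ε / 2 < v x' := by
      rw [Real.norm_eq_abs] at hx2
      rcases le_total 0 (v x) with h | h
      · exact ⟨x, hx1, by rwa [abs_of_nonneg h] at hx2⟩
      · exact ⟨-x, by simpa using hx1, by
          rw [abs_of_nonpos h] at hx2
          simpa using hx2⟩
    have hopen : IsOpen {z : Metric.closedBall (0 : X) 1 | ε / 2 < v (z : X)} :=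
      isOpen_lt continuous_const (v.continuous.comp continuous_subtype_val)
    obtain ⟨n, hn⟩ := (TopologicalSpace.denseRange_denseSeq
      (Metric.closedBall (0 : X) 1)).exists_mem_open hopen
      ⟨⟨x', by simpa using hx'1.le⟩, hx'2⟩
    exact ⟨n, le_of_lt hn⟩

/-- M8a: one step of the Baire chain. -/
theorem one_step {X : Type} [NormedAddCommGroup X] [NormedSpace ℝ X]
    [TopologicalSpace.SeparableSpace X]
    {S : Type} [TopologicalSpace S] [CompactSpace S] [T2Space S]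
    (ev : S → X →L[ℝ] ℝ) (hev : ∀ x, Continuous fun s => ev s x)
    (R : ℝ) (hR : ∀ s, ‖ev s‖ ≤ R) (K : Set S) (hK : IsClosed K) (ε : ℝ) (hε : 0 < ε)
    (hnd : ∀ s ∈ K, ev s ∈ closure (convexHull ℝ ((ev '' K) \ Metric.ball (ev s) ε)))
    (hslice : ∀ O : Set S, IsOpen O → (O ∩ K).Nonempty →
      ∃ (y : X) (c : ℝ), (∃ s ∈ K, c < ev s y) ∧ ∀ s ∈ K, c < ev s y → s ∈ O)
    (O : Set S) (hO : IsOpen O) (hne : (O ∩ K).Nonempty) (η : ℝ) (hη : 0 < η) :
    ∃ (V : Set S) (L : ℕ) (x : Fin (L + 1) → X) (Φ : S → Fin (L + 1) → S),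
      IsOpen V ∧ V ⊆ O ∧ (V ∩ K).Nonempty ∧ (∀ l, ‖x l‖ ≤ 1) ∧
      ∀ w ∈ V ∩ K, (∀ l, Φ w l ∈ O ∩ K) ∧
        ‖ev w - ((L + 1 : ℕ) : ℝ)⁻¹ • ∑ l, ev (Φ w l)‖ ≤ η ∧
        ε / 4 ≤ ((L + 1 : ℕ) : ℝ)⁻¹ * ∑ l, (ev (Φ w l) (x l) - ev w (x l)) := by
  classical
  obtain ⟨y₀, t, ⟨s₀, hs₀K, hs₀⟩, hsl⟩ := hslice O hO hne
  have hR0 : 0 ≤ R := (norm_nonneg _).trans (hR s₀)
  obtain ⟨s₁, hs₁K, hs₁⟩ := hK.isCompact.exists_isMaxOn ⟨s₀, hs₀K⟩ (hev y₀).continuousOn
  set M : ℝ := ev s₁ y₀ with hM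
  have hMmax : ∀ s ∈ K, ev s y₀ ≤ M := fun s hs => hs₁ hs
  have htM : t < M := lt_of_lt_of_le hs₀ (hMmax s₀ hs₀K)
  -- constants
  set θ : ℝ := min (η / (4 * (R + 1))) (1 / 2) with hθ
  have hθ0 : 0 < θ := by
    rw [hθ]; positivity
  have hθ1 : θ ≤ η / (4 * (R + 1)) := min_le_left _ _
  have hθ2 : θ ≤ 1 / 2 := min_le_right _ _
  set κ : ℝ := θ * (M - t) with hκ
  have hκ0 : 0 < κ := mul_pos hθ0 (by linarith)
  set η₂ : ℝ := min (η / 2) (κ / (4 * (‖y₀‖ + 1))) with hη₂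
  have hη₂0 : 0 < η₂ := by rw [hη₂]; positivity
  have hη₂1 : η₂ ≤ η / 2 := min_le_left _ _
  have hη₂2 : η₂ ≤ κ / (4 * (‖y₀‖ + 1)) := min_le_right _ _
  have hη₂y : η₂ * ‖y₀‖ ≤ κ / 4 := by
    calc η₂ * ‖y₀‖ ≤ κ / (4 * (‖y₀‖ + 1)) * (‖y₀‖ + 1) := by
          apply mul_le_mul hη₂2 (by linarith) (norm_nonneg _) (by positivity)
      _ = κ / 4 := by field_simp
  obtain ⟨d, hd1, hd2⟩ := onestep_dense (X := X)
  -- the countable closed cover of `K`
  let f : (Σ L : ℕ, (Fin (L + 1) → ℕ)) → Set K := fun i =>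
    Subtype.val ⁻¹' (onestepR ev K ε η₂ i.1 (fun l => d (i.2 l)))
  have hfc : ∀ i, IsClosed (f i) := fun i =>
    (onestepR_closed ev hev K hK ε η₂ hη₂0.le _ _).preimage continuous_subtype_val
  have hfU : ⋃ i, f i = Set.univ := by
    rw [Set.eq_univ_iff_forall]
    rintro ⟨w, hw⟩
    rw [Set.mem_iUnion]
    obtain ⟨L, c', hc', hclose⟩ := onestep_avg _ _ (hnd w hw) η₂ hη₂0
    choose c hcK hcc using fun l => (hc' l).1
    have hfar : ∀ l, ε ≤ ‖ev (c l) - ev w‖ := by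
      intro l
      have := (hc' l).2
      rw [Metric.mem_ball, not_lt, ← hcc l, dist_eq_norm] at this
      exact this
    choose n hn using fun l => hd2 (ev (c l) - ev w) ε hε (hfar l)
    refine ⟨⟨L, n⟩, c, fun l => ⟨hcK l, ?_⟩, ?_⟩
    · simpa using hn l
    · have : ∀ l, c' l = ev (c l) := fun l => (hcc l).symm
      simp only [this] at hclose
      exact hclose.le
  have : CompactSpace K := isCompact_iff_compactSpace.1 hK.isCompact
  have hdense := dense_iUnion_interior_of_closed hfc hfU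
  -- the thin slice
  have hV₀ : IsOpen {w : S | M - κ / 2 < ev w y₀} := isOpen_lt continuous_const (hev y₀)
  have hs₁V : (⟨s₁, hs₁K⟩ : K) ∈ (Subtype.val ⁻¹' {w : S | M - κ / 2 < ev w y₀} : Set K) := by
    show M - κ / 2 < ev s₁ y₀
    rw [← hM]; linarith
  obtain ⟨w₀, hw₀V, hw₀⟩ := hdense.inter_open_nonempty _
    (hV₀.preimage continuous_subtype_val) ⟨_, hs₁V⟩
  rw [Set.mem_iUnion] at hw₀
  obtain ⟨⟨L, n⟩, hw₀⟩ := hw₀
  have hint : IsOpen (interior (f ⟨L, n⟩)) := isOpen_interior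
  rw [isOpen_induced_iff] at hint
  obtain ⟨V', hV'o, hV'⟩ := hint
  have hchoice : ∀ w : S, ∃ c : Fin (L + 1) → S, w ∈ onestepR ev K ε η₂ L (fun l => d (n l)) →
      (∀ l, c l ∈ K ∧ ε / 2 ≤ ev (c l) (d (n l)) - ev w (d (n l))) ∧
        ‖ev w - ((L + 1 : ℕ) : ℝ)⁻¹ • ∑ l, ev (c l)‖ ≤ η₂ := by
    intro w
    by_cases h : w ∈ onestepR ev K ε η₂ L (fun l => d (n l))
    · obtain ⟨c, hc⟩ := h
      exact ⟨c, fun _ => hc⟩
    · exact ⟨fun _ => w, fun h' => absurd h' h⟩
  choose c hc using hchoice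
  refine ⟨V' ∩ {w : S | M - κ / 2 < ev w y₀} ∩ O, L, fun l => d (n l),
    fun w l => if c w l ∈ O then c w l else w, (hV'o.inter hV₀).inter hO,
    Set.inter_subset_right, ?_, fun l => hd1 _, ?_⟩
  · refine ⟨w₀, ⟨⟨?_, hw₀V⟩, ?_⟩, w₀.2⟩
    · rw [← hV'] at hw₀; exact hw₀
    · refine hsl w₀ w₀.2 ?_
      have h1 : M - κ / 2 < ev (w₀ : S) y₀ := hw₀V
      have h2 : κ ≤ (1 / 2) * (M - t) := by
        rw [hκ]; exact mul_le_mul_of_nonneg_right hθ2 (by linarith)
      linarith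
  · rintro w ⟨⟨⟨hwV', hwV₀⟩, hwO⟩, hwK⟩
    have hwR : w ∈ onestepR ev K ε η₂ L (fun l => d (n l)) := by
      have h1 : (⟨w, hwK⟩ : K) ∈ interior (f ⟨L, n⟩) := by rw [← hV']; exact hwV'
      have h2 : (⟨w, hwK⟩ : K) ∈ f ⟨L, n⟩ := interior_subset h1
      exact h2
    obtain ⟨hc1, hc2⟩ := hc w hwR
    have hwV₀' : M - κ / 2 < ev w y₀ := hwV₀
    set N : ℝ := ((L + 1 : ℕ) : ℝ) with hN
    have hN0 : 0 < N := by rw [hN]; positivity
    set bad : Finset (Fin (L + 1)) := Finset.univ.filter (fun l => c w l ∉ O) with hbad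
    -- count the bad indices
    have hcard : (bad.card : ℝ) ≤ N * θ := by
      have h1 : ∑ l, ev (c w l) y₀ ≤ ∑ l, (M - (if c w l ∉ O then (M - t) else 0)) := by
        refine Finset.sum_le_sum fun l _ => ?_
        by_cases hl : c w l ∈ O
        · simpa [hl] using hMmax _ (hc1 l).1
        · have : ¬ (t < ev (c w l) y₀) := fun h => hl (hsl _ (hc1 l).1 h)
          simp only [hl, not_false_eq_true, if_true]
          linarith [not_lt.1 this]
      have h2 : ∑ l : Fin (L + 1), (M - (if c w l ∉ O then (M - t) else 0))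
          = N * M - bad.card * (M - t) := by
        rw [Finset.sum_sub_distrib, ← Finset.sum_filter, Finset.sum_const, Finset.sum_const]
        simp [hN, hbad]
      have h3 : ev w y₀ - N⁻¹ * ∑ l, ev (c w l) y₀ ≤ η₂ * ‖y₀‖ := by
        have h4 := (ContinuousLinearMap.opNorm_le_iff hη₂0.le).1 hc2 y₀
        have h5 : (ev w - N⁻¹ • ∑ l, ev (c w l)) y₀ = ev w y₀ - N⁻¹ * ∑ l, ev (c w l) y₀ := by
          simp
        rw [h5] at h4
        exact (le_abs_self _).trans h4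
      have h6 : N⁻¹ * ∑ l, ev (c w l) y₀ ≤ M - N⁻¹ * bad.card * (M - t) := by
        calc N⁻¹ * ∑ l, ev (c w l) y₀ ≤ N⁻¹ * (N * M - bad.card * (M - t)) := by
              rw [← h2]; gcongr
          _ = M - N⁻¹ * bad.card * (M - t) := by field_simp
      have h7 : N⁻¹ * bad.card * (M - t) ≤ θ * (M - t) := by
        have : N⁻¹ * bad.card * (M - t) ≤ κ / 2 + κ / 4 := by linarith
        calc N⁻¹ * bad.card * (M - t) ≤ κ / 2 + κ / 4 := this
          _ ≤ κ := by linarith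
          _ = θ * (M - t) := hκ
      have h8 : N⁻¹ * bad.card ≤ θ := le_of_mul_le_mul_right h7 (by linarith)
      calc (bad.card : ℝ) = N * (N⁻¹ * bad.card) := by field_simp
        _ ≤ N * θ := by gcongr
    refine ⟨?_, ?_, ?_⟩
    · intro l
      by_cases hl : c w l ∈ O
      · simp only [hl, if_true]; exact ⟨hl, (hc1 l).1⟩
      · simp only [hl, if_false]; exact ⟨hwO, hwK⟩
    · have h1 : ‖N⁻¹ • ∑ l, ev (c w l) - N⁻¹ • ∑ l, ev (if c w l ∈ O then c w l else w)‖
          ≤ η / 2 := by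
        have h0 : N⁻¹ • ∑ l, ev (c w l) - N⁻¹ • ∑ l, ev (if c w l ∈ O then c w l else w)
            = N⁻¹ • ∑ l, (ev (c w l) - ev (if c w l ∈ O then c w l else w)) := by
          rw [Finset.sum_sub_distrib, smul_sub]
        rw [h0, norm_smul, Real.norm_eq_abs, abs_of_pos (inv_pos.2 hN0)]
        have h2 : ‖∑ l, (ev (c w l) - ev (if c w l ∈ O then c w l else w))‖
            ≤ ∑ l : Fin (L + 1), (if c w l ∉ O then 2 * R else 0) := by
          refine norm_sum_le_of_le _ fun l _ => ?_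
          by_cases hl : c w l ∈ O
          · simp [hl]
          · simp only [hl, not_false_eq_true, if_true, if_false]
            calc ‖ev (c w l) - ev w‖ ≤ ‖ev (c w l)‖ + ‖ev w‖ := norm_sub_le _ _
              _ ≤ 2 * R := by linarith [hR (c w l), hR w]
        have h3 : ∑ l : Fin (L + 1), (if c w l ∉ O then 2 * R else 0) = bad.card * (2 * R) := by
          rw [← Finset.sum_filter, Finset.sum_const, nsmul_eq_mul]
        calc N⁻¹ * ‖∑ l, (ev (c w l) - ev (if c w l ∈ O then c w l else w))‖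
            ≤ N⁻¹ * (bad.card * (2 * R)) := by rw [← h3]; gcongr
          _ ≤ N⁻¹ * ((N * θ) * (2 * R)) := by gcongr
          _ = θ * (2 * R) := by field_simp
          _ ≤ η / (4 * (R + 1)) * (2 * (R + 1)) := by
              apply mul_le_mul hθ1 (by linarith) (by positivity) (by positivity)
          _ = η / 2 := by field_simp; ring
      calc ‖ev w - N⁻¹ • ∑ l, ev (if c w l ∈ O then c w l else w)‖
          = ‖(ev w - N⁻¹ • ∑ l, ev (c w l)) + (N⁻¹ • ∑ l, ev (c w l)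
              - N⁻¹ • ∑ l, ev (if c w l ∈ O then c w l else w))‖ := by congr 1; abel
        _ ≤ η₂ + η / 2 := (norm_add_le _ _).trans (add_le_add hc2 h1)
        _ ≤ η := by linarith
    · have h1 : ∑ l : Fin (L + 1), (ε / 2 - (if c w l ∉ O then ε / 2 else 0))
          ≤ ∑ l, (ev (if c w l ∈ O then c w l else w) (d (n l)) - ev w (d (n l))) := by
        refine Finset.sum_le_sum fun l _ => ?_
        by_cases hl : c w l ∈ O
        · simpa [hl] using (hc1 l).2
        · simp [hl]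
      have h2 : ∑ l : Fin (L + 1), (ε / 2 - (if c w l ∉ O then ε / 2 else 0))
          = (N - bad.card) * (ε / 2) := by
        rw [Finset.sum_sub_distrib, ← Finset.sum_filter, Finset.sum_const, Finset.sum_const]
        simp [hN, hbad]
        ring
      calc ε / 4 ≤ (1 - θ) * (ε / 2) := by nlinarith
        _ = N⁻¹ * ((N - N * θ) * (ε / 2)) := by field_simp
        _ ≤ N⁻¹ * ((N - bad.card) * (ε / 2)) := by gcongr
        _ ≤ _ := by rw [← h2]; gcongr

/-- M8b: the chain. -/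
theorem exists_chain {X : Type} [NormedAddCommGroup X] [NormedSpace ℝ X]
    [TopologicalSpace.SeparableSpace X]
    {S : Type} [TopologicalSpace S] [CompactSpace S] [T2Space S]
    (ev : S → X →L[ℝ] ℝ) (hev : ∀ x, Continuous fun s => ev s x)
    (R : ℝ) (hR : ∀ s, ‖ev s‖ ≤ R) (K : Set S) (hK : IsClosed K) (hKne : K.Nonempty)
    (ε : ℝ) (hε : 0 < ε)
    (hnd : ∀ s ∈ K, ev s ∈ closure (convexHull ℝ ((ev '' K) \ Metric.ball (ev s) ε)))
    (hslice : ∀ O : Set S, IsOpen O → (O ∩ K).Nonempty →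
      ∃ (y : X) (c : ℝ), (∃ s ∈ K, c < ev s y) ∧ ∀ s ∈ K, c < ev s y → s ∈ O)
    (η : ℕ → ℝ) (hη : ∀ j, 0 < η j) :
    Nonempty (FlipChain ev (ε / 4) η) := by
  have hstep : ∀ (j : ℕ) (O : {O : Set S // IsOpen O ∧ (O ∩ K).Nonempty}),
      ∃ (V : {O : Set S // IsOpen O ∧ (O ∩ K).Nonempty}) (L : ℕ) (x : Fin (L + 1) → X)
        (Φ : S → Fin (L + 1) → S), V.1 ⊆ O.1 ∧ (∀ l, ‖x l‖ ≤ 1) ∧
      ∀ w ∈ V.1 ∩ K, (∀ l, Φ w l ∈ O.1 ∩ K) ∧
        ‖ev w - ((L + 1 : ℕ) : ℝ)⁻¹ • ∑ l, ev (Φ w l)‖ ≤ η j ∧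
        ε / 4 ≤ ((L + 1 : ℕ) : ℝ)⁻¹ * ∑ l, (ev (Φ w l) (x l) - ev w (x l)) := by
    intro j O
    obtain ⟨V, L, x, Φ, h1, h2, h3, h4, h5⟩ := one_step ev hev R hR K hK ε hε hnd hslice O.1
      O.2.1 O.2.2 (η j) (hη j)
    exact ⟨⟨V, h1, h3⟩, L, x, Φ, h2, h4, h5⟩
  choose V L x Φ h1 h2 h3 using hstep
  let O : ℕ → {O : Set S // IsOpen O ∧ (O ∩ K).Nonempty} := fun n =>
    Nat.rec ⟨Set.univ, isOpen_univ, by simpa using hKne⟩ (fun j O => V j O) n
  have hO : ∀ j, O (j + 1) = V j (O j) := fun j => rfl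
  exact ⟨{
    V := fun j => (O j).1 ∩ K
    L := fun j => L j (O j)
    x := fun j => x j (O j)
    Φ := fun j => Φ j (O j)
    ne := fun j => (O j).2.2
    sub := fun j => by
      rw [hO]
      exact Set.inter_subset_inter_left _ (h1 j (O j))
    norm_x := fun j l => h2 j (O j) l
    mem := fun j w hw l => by
      rw [hO] at hw
      exact (h3 j (O j) w hw).1 l
    avg_close := fun j w hw => by
      rw [hO] at hw
      exact (h3 j (O j) w hw).2.1
    avg_gain := fun j w hw => by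
      rw [hO] at hw
      exact (h3 j (O j) w hw).2.2 }⟩

end Pool.Agent.H.MP_36cdb9_an
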