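import Pool.Agent.H.MP_36cdb9_an.Density

set_option autoImplicit false

open MeasureTheory Filter Topology

namespace Pool.Agent.H.MP_36cdb9_an

theorem rademacher_bounded_integrable {Ω : Type} [MeasurableSpace Ω] (μ : Measure Ω)
    [IsProbabilityMeasure μ] {f : Ω → ℝ} (hf : Measurable f) {R : ℝ} (hR : ∀ ω, |f ω| ≤ R) :
    Integrable f μ :=
  Integrable.of_bound hf.aestronglyMeasurable R (Eventually.of_forall (fun ω => by
    simpa [Real.norm_eq_abs] using hR ω))

/-- Bessel: pairings of a measurable set with an orthonormal sequence tend to `0`. -/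
theorem rademacher_bessel {Ω : Type} [MeasurableSpace Ω] (μ : Measure Ω)
    [IsProbabilityMeasure μ] (e : ℕ → Ω → ℝ)
    (hem : ∀ k, Measurable (e k)) (he : ∀ k ω, e k ω = 1 ∨ e k ω = -1)
    (horth : ∀ i j, i ≠ j → ∫ ω, e i ω * e j ω ∂μ = 0)
    (A : Set Ω) (hA : MeasurableSet A) :
    Tendsto (fun k => ∫ ω in A, e k ω ∂μ) atTop (𝓝 0) := by
  have hmem : ∀ k, MemLp (e k) 2 μ := by
    intro k
    refine MemLp.of_bound (hem k).aestronglyMeasurable 1 (Eventually.of_forall (fun ω => ?_))
    rcases he k ω with h | h <;> simp [h]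
  have hA2 : MemLp (A.indicator (fun _ => (1:ℝ))) 2 μ := by
    refine MemLp.of_bound ((measurable_const.indicator hA)).aestronglyMeasurable 1
      (Eventually.of_forall (fun ω => ?_))
    by_cases h : ω ∈ A <;> simp [h]
  have hinner : ∀ i j, inner ℝ ((hmem i).toLp (e i)) ((hmem j).toLp (e j)) =
      ∫ ω, e i ω * e j ω ∂μ := by
    intro i j
    rw [L2.inner_def]
    apply integral_congr_ae
    filter_upwards [(hmem i).coeFn_toLp, (hmem j).coeFn_toLp] with ω h1 h2
    rw [h1, h2]
    simp [mul_comm]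
  have horthn : Orthonormal ℝ (fun k => (hmem k).toLp (e k)) := by
    rw [orthonormal_iff_ite]
    intro i j
    rw [hinner]
    split_ifs with h
    · subst h
      have : ∀ ω, e i ω * e i ω = 1 := by
        intro ω
        rcases he i ω with h | h <;> simp [h]
      simp [this]
    · exact horth i j h
  have hsum := horthn.inner_products_summable (hA2.toLp _)
  have hval : ∀ k, inner ℝ ((hmem k).toLp (e k)) (hA2.toLp (A.indicator (fun _ => (1:ℝ)))) =
      ∫ ω in A, e k ω ∂μ := by
    intro k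
    rw [L2.inner_def, ← integral_indicator hA]
    apply integral_congr_ae
    filter_upwards [(hmem k).coeFn_toLp, hA2.coeFn_toLp] with ω h1 h2
    rw [h1, h2]
    by_cases h : ω ∈ A <;> simp [h]
  have h1 := hsum.tendsto_atTop_zero
  simp only [hval] at h1
  have h2 : Tendsto (fun k => Real.sqrt (‖∫ ω in A, e k ω ∂μ‖ ^ 2)) atTop (𝓝 (Real.sqrt 0)) :=
    h1.sqrt
  simp only [Real.sqrt_sq (norm_nonneg _), Real.sqrt_zero] at h2
  exact tendsto_zero_iff_norm_tendsto_zero.mpr h2

/-- half of every set lies in `{e k = 1}`, asymptotically. -/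
theorem rademacher_half {Ω : Type} [MeasurableSpace Ω] (μ : Measure Ω)
    [IsProbabilityMeasure μ] (e : ℕ → Ω → ℝ)
    (hem : ∀ k, Measurable (e k)) (he : ∀ k ω, e k ω = 1 ∨ e k ω = -1)
    (horth : ∀ i j, i ≠ j → ∫ ω, e i ω * e j ω ∂μ = 0)
    (A : Set Ω) (hA : MeasurableSet A) (τ : ℝ) (hτ : τ = 1 ∨ τ = -1) :
    Tendsto (fun k => μ.real (A ∩ {ω | e k ω = τ})) atTop (𝓝 (μ.real A / 2)) := by
  have hb := rademacher_bessel μ e hem he horth A hA
  have key : ∀ k, μ.real (A ∩ {ω | e k ω = τ}) = μ.real A / 2 + τ * (∫ ω in A, e k ω ∂μ) / 2 := by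
    intro k
    have hms : MeasurableSet {ω | e k ω = τ} := (hem k) (measurableSet_singleton τ)
    have h1 : μ.real (A ∩ {ω | e k ω = τ}) = ∫ ω in A, {ω | e k ω = τ}.indicator (fun _ => (1:ℝ)) ω ∂μ := by
      rw [setIntegral_indicator hms]
      simp [Measure.real]
    have h2 : ∀ ω, {ω | e k ω = τ}.indicator (fun _ => (1:ℝ)) ω = 1/2 + (τ/2) * e k ω := by
      intro ω
      by_cases h : e k ω = τ
      · simp only [Set.mem_ofPred_eq, h, Set.indicator_of_mem]
        rcases hτ with h' | h' <;> simp [h'] <;> norm_num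
      · simp only [Set.mem_ofPred_eq, h, not_false_eq_true, Set.indicator_of_notMem]
        rcases hτ with h' | h' <;> rcases he k ω with h'' | h''
        · exact absurd (h''.trans h'.symm) h
        · rw [h', h'']; norm_num
        · rw [h', h'']; norm_num
        · exact absurd (h''.trans h'.symm) h
    rw [h1]
    simp only [h2]
    rw [integral_add]
    · rw [integral_const_mul]
      simp [Measure.real]
      ring
    · exact integrable_const _
    · apply Integrable.const_mul
      apply Integrable.integrableOn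
      apply rademacher_bounded_integrable μ (hem k) (R := 1)
      intro ω
      rcases he k ω with h | h <;> simp [h]
  simp only [key]
  have : μ.real A / 2 = μ.real A / 2 + τ * 0 / 2 := by ring
  nth_rewrite 2 [this]
  exact (tendsto_const_nhds).add ((hb.const_mul τ).div_const 2)


/-- weak limit along an ultrafilter of `g k` restricted to `{e k = τ}`. -/
theorem rademacher_limit {Ω : Type} [MeasurableSpace Ω] (μ : Measure Ω)
    [IsProbabilityMeasure μ] (e g : ℕ → Ω → ℝ) (R : ℝ) (hR : 0 ≤ R) (τ : ℝ)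
    (hem : ∀ k, Measurable (e k))
    (hgm : ∀ k, Measurable (g k)) (hg : ∀ k ω, |g k ω| ≤ R) (U : Ultrafilter ℕ) :
    ∃ φ : Ω → ℝ, Measurable φ ∧ (∀ ω, |φ ω| ≤ R) ∧
      ∀ A, MeasurableSet A →
        Tendsto (fun k => ∫ ω in A ∩ {ω | e k ω = τ}, g k ω ∂μ) U (𝓝 (∫ ω in A, φ ω ∂μ)) := by
  have hbd : ∀ (A : Set Ω) (k : ℕ), |∫ ω in A ∩ {ω | e k ω = τ}, g k ω ∂μ| ≤ R * μ.real A := by
    intro A k
    have h := norm_setIntegral_le_of_norm_le_const (μ := μ) (s := A ∩ {ω | e k ω = τ})
      (f := g k) (C := R) (measure_lt_top _ _) (fun x _ => hg k x)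
    refine le_trans h ?_
    exact mul_le_mul_of_nonneg_left (measureReal_mono Set.inter_subset_left) hR
  have hlim : ∀ A : Set Ω, ∃ x : ℝ,
      Tendsto (fun k => ∫ ω in A ∩ {ω | e k ω = τ}, g k ω ∂μ) U (𝓝 x) ∧ |x| ≤ R * μ.real A := by
    intro A
    have hc : IsCompact (Set.Icc (-(R * μ.real A)) (R * μ.real A)) := isCompact_Icc
    obtain ⟨x, hx, hx2⟩ := hc.ultrafilter_le_nhds
      (U.map (fun k => ∫ ω in A ∩ {ω | e k ω = τ}, g k ω ∂μ)) (by
        rw [le_principal_iff]
        simp only [Ultrafilter.coe_map, mem_map]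
        apply Filter.univ_mem'
        intro k
        exact abs_le.mp (hbd A k))
    exact ⟨x, hx2, abs_le.mpr hx⟩
  choose ν hν hνb using hlim
  obtain ⟨φ, hφm, hφb, hφ⟩ := exists_density μ ν R hR (by
    intro s t hs ht hst
    refine tendsto_nhds_unique (hν (s ∪ t)) ?_
    have := (hν s).add (hν t)
    refine this.congr ?_
    intro k
    have hms : MeasurableSet {ω | e k ω = τ} := (hem k) (measurableSet_singleton τ)
    rw [Set.union_inter_distrib_right, setIntegral_union]
    · exact hst.mono Set.inter_subset_left Set.inter_subset_left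
    · exact ht.inter hms
    · exact (rademacher_bounded_integrable μ (hgm k) (hg k)).integrableOn
    · exact (rademacher_bounded_integrable μ (hgm k) (hg k)).integrableOn) (fun s _ => hνb s)
  refine ⟨φ, hφm, hφb, fun A hA => ?_⟩
  rw [← hφ A hA]
  exact hν A

/-- a strict comparison of set integrals on positive measure sets -/
theorem rademacher_int_lt {Ω : Type} [MeasurableSpace Ω] (μ : Measure Ω)
    [IsProbabilityMeasure μ] (φ : Ω → ℝ) (hφm : Measurable φ) (R : ℝ) (hφ : ∀ ω, |φ ω| ≤ R)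
    (q : ℝ) (O : Set Ω) (hO : MeasurableSet O) (hpos : 0 < μ O) (h : ∀ ω ∈ O, q < φ ω) :
    q * μ.real O < ∫ ω in O, φ ω ∂μ := by
  have hint : Integrable φ μ := rademacher_bounded_integrable μ hφm hφ
  have h1 : 0 < ∫ ω in O, (φ ω - q) ∂μ := by
    rw [setIntegral_pos_iff_support_of_nonneg_ae]
    · refine lt_of_lt_of_le hpos (measure_mono ?_)
      intro ω hω
      refine ⟨?_, hω⟩
      simp only [Function.mem_support]
      have := h ω hω
      linarith
    · filter_upwards [ae_restrict_mem hO] with ω hω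
      have := h ω hω
      simp only [Pi.zero_apply]
      linarith
    · exact (hint.sub (integrable_const q)).integrableOn
  rw [integral_sub hint.integrableOn (integrable_const q)] at h1
  simp only [integral_const, smul_eq_mul, MeasurableSet.univ, measureReal_restrict_apply,
    Set.univ_inter] at h1
  linarith [mul_comm q (μ.real O)]

/-- one step: on a positive measure set where the weak limit is above `q`, eventually `g k`
exceeds `2 q` with positive measure. -/
theorem rademacher_step {Ω : Type} [MeasurableSpace Ω] (μ : Measure Ω)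
    [IsProbabilityMeasure μ] (e g : ℕ → Ω → ℝ) (R : ℝ)
    (hem : ∀ k, Measurable (e k)) (he : ∀ k ω, e k ω = 1 ∨ e k ω = -1)
    (horth : ∀ i j, i ≠ j → ∫ ω, e i ω * e j ω ∂μ = 0)
    (hgm : ∀ k, Measurable (g k)) (hg : ∀ k ω, |g k ω| ≤ R) (U : Ultrafilter ℕ)
    (hU : (U : Filter ℕ) ≤ atTop) (τ : ℝ) (hτ : τ = 1 ∨ τ = -1)
    (φ : Ω → ℝ) (hφm : Measurable φ) (hφ : ∀ ω, |φ ω| ≤ R) (q : ℝ)
    (O : Set Ω) (hO : MeasurableSet O) (hpos : 0 < μ O) (h : ∀ ω ∈ O, q < φ ω)
    (hlim : Tendsto (fun k => ∫ ω in O ∩ {ω | e k ω = τ}, g k ω ∂μ) U (𝓝 (∫ ω in O, φ ω ∂μ))) :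
    ∀ᶠ k in (U : Filter ℕ), 0 < μ (O ∩ {ω | 2 * q < g k ω}) := by
  have h1 := rademacher_int_lt μ φ hφm R hφ q O hO hpos h
  have h2 : Tendsto (fun k => (2 * q) * μ.real (O ∩ {ω | e k ω = τ})) U
      (𝓝 ((2 * q) * (μ.real O / 2))) :=
    ((rademacher_half μ e hem he horth O hO τ hτ).mono_left hU).const_mul (2 * q)
  have h3 : (2 * q) * (μ.real O / 2) < ∫ ω in O, φ ω ∂μ := by
    have : (2 * q) * (μ.real O / 2) = q * μ.real O := by ring
    rw [this]; exact h1
  filter_upwards [h2.eventually_lt hlim h3] with k hk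
  by_contra hcon
  have hz : μ (O ∩ {ω | 2 * q < g k ω}) = 0 := by
    simpa using hcon
  have hae : ∀ᵐ ω ∂(μ.restrict (O ∩ {ω | e k ω = τ})), g k ω ≤ 2 * q := by
    have hms : MeasurableSet {ω | e k ω = τ} := (hem k) (measurableSet_singleton τ)
    rw [ae_restrict_iff' (hO.inter hms)]
    rw [ae_iff]
    refine measure_mono_null ?_ hz
    intro ω hω
    simp only [Set.mem_inter_iff, Set.mem_ofPred_eq, Classical.not_imp, not_le] at hω ⊢
    exact ⟨hω.1.1, hω.2⟩
  have hint : Integrable (g k) μ := rademacher_bounded_integrable μ (hgm k) (hg k)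
  have h4 : ∫ ω in O ∩ {ω | e k ω = τ}, g k ω ∂μ ≤ ∫ ω in O ∩ {ω | e k ω = τ}, (2 * q) ∂μ :=
    integral_mono_ae hint.integrableOn (integrable_const _) hae
  simp only [integral_const, smul_eq_mul, MeasurableSet.univ, measureReal_restrict_apply,
    Set.univ_inter] at h4
  have h5 : (2 * q) * μ.real (O ∩ {ω | e k ω = τ}) = μ.real (O ∩ {ω | e k ω = τ}) * (2 * q) :=
    mul_comm _ _
  linarith

/-- M3: if `ε k` is a `±1`-valued orthonormal sequence and `∫ ε k * g k ≥ c > 0` for uniformly
bounded `g k`, then a subsequence of `g` is independent (with uniform levels). -/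
theorem patterns_of_rademacher {Ω : Type} [MeasurableSpace Ω] (μ : Measure Ω)
    [IsProbabilityMeasure μ] (e g : ℕ → Ω → ℝ) (R c : ℝ) (hc : 0 < c)
    (hem : ∀ k, Measurable (e k)) (he : ∀ k ω, e k ω = 1 ∨ e k ω = -1)
    (horth : ∀ i j, i ≠ j → ∫ ω, e i ω * e j ω ∂μ = 0)
    (hgm : ∀ k, Measurable (g k)) (hg : ∀ k ω, |g k ω| ≤ R)
    (hgain : ∀ k, c ≤ ∫ ω, e k ω * g k ω ∂μ) :
    ∃ (a b : ℝ) (φ : ℕ → ℕ), a < b ∧ StrictMono φ ∧
      ∀ (n : ℕ) (σ : ℕ → Bool), ∃ ω, ∀ i < n,
        (σ i = true → b < g (φ i) ω) ∧ (σ i = false → g (φ i) ω < a) := by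
  have hne : Nonempty Ω := nonempty_of_isProbabilityMeasure μ
  have hR : 0 ≤ R := le_trans (abs_nonneg _) (hg 0 hne.some)
  let U : Ultrafilter ℕ := Filter.hyperfilter ℕ
  have hU : (U : Filter ℕ) ≤ atTop := Nat.hyperfilter_le_atTop
  obtain ⟨P, hPm, hPb, hP⟩ := rademacher_limit μ e g R hR 1 hem hgm hg U
  obtain ⟨N, hNm, hNb, hN⟩ := rademacher_limit μ e g R hR (-1) hem hgm hg U
  have hPint : Integrable P μ := rademacher_bounded_integrable μ hPm hPb
  have hNint : Integrable N μ := rademacher_bounded_integrable μ hNm hNb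
  -- total gain
  have hsplit : ∀ k, ∫ ω, e k ω * g k ω ∂μ =
      ∫ ω in Set.univ ∩ {ω | e k ω = 1}, g k ω ∂μ - ∫ ω in Set.univ ∩ {ω | e k ω = -1}, g k ω ∂μ := by
    intro k
    have hms : MeasurableSet {ω | e k ω = 1} := (hem k) (measurableSet_singleton _)
    have hms' : MeasurableSet {ω | e k ω = -1} := (hem k) (measurableSet_singleton _)
    have hint : Integrable (g k) μ := rademacher_bounded_integrable μ (hgm k) (hg k)
    rw [Set.univ_inter, Set.univ_inter, ← integral_indicator hms, ← integral_indicator hms',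
      ← integral_sub (hint.indicator hms) (hint.indicator hms')]
    apply integral_congr_ae
    refine Eventually.of_forall (fun ω => ?_)
    rcases he k ω with h | h
    · have h2 : ¬ ((1:ℝ) = -1) := by norm_num
      simp [Set.indicator, h, h2]
    · have h2 : ¬ (-1 = (1:ℝ)) := by norm_num
      simp [Set.indicator, h, h2]
  have htot : c ≤ ∫ ω, (P ω - N ω) ∂μ := by
    rw [integral_sub hPint hNint]
    have h1 := (hP Set.univ MeasurableSet.univ).sub (hN Set.univ MeasurableSet.univ)
    rw [setIntegral_univ, setIntegral_univ] at h1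
    refine ge_of_tendsto h1 (Eventually.of_forall (fun k => ?_))
    rw [← hsplit k]
    exact hgain k
  -- a set of positive measure
  obtain ⟨p, q, hpq, hA0⟩ : ∃ p q : ℚ, p < q ∧ 0 < μ ({ω | N ω < p} ∩ {ω | (q:ℝ) < P ω}) := by
    by_contra hcon
    push Not at hcon
    have hz : ∀ p q : ℚ, p < q → μ ({ω | N ω < p} ∩ {ω | (q:ℝ) < P ω}) = 0 := by
      intro p q h
      simpa using hcon p q h
    have hae : ∀ᵐ ω ∂μ, P ω ≤ N ω := by
      have h1 : ∀ᵐ ω ∂μ, ∀ p q : ℚ, p < q → ¬ (N ω < p ∧ (q:ℝ) < P ω) := by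
        rw [ae_all_iff]
        intro p
        rw [ae_all_iff]
        intro q
        by_cases h : p < q
        · have := hz p q h
          rw [ae_iff]
          refine measure_mono_null ?_ this
          intro ω hω
          simp only [Set.mem_ofPred_eq, Classical.not_imp, not_not] at hω
          exact hω.2
        · exact Eventually.of_forall (fun ω hh => absurd hh h)
      filter_upwards [h1] with ω hω
      by_contra hlt
      push Not at hlt
      obtain ⟨p, hp1, hp2⟩ := exists_rat_btwn hlt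
      obtain ⟨q, hq1, hq2⟩ := exists_rat_btwn hp2
      exact hω p q (by exact_mod_cast hq1) ⟨hp1, hq2⟩
    have h2 : ∫ ω, (P ω - N ω) ∂μ ≤ ∫ _ω, (0:ℝ) ∂μ := by
      apply integral_mono_ae (hPint.sub hNint) (integrable_const _)
      filter_upwards [hae] with ω hω
      simp only [Pi.sub_apply]
      linarith
    simp only [integral_zero] at h2
    linarith
  set A0 : Set Ω := {ω | N ω < p} ∩ {ω | (q:ℝ) < P ω} with hA0def
  have hA0m : MeasurableSet A0 :=
    (measurableSet_lt hNm measurable_const).inter (measurableSet_lt measurable_const hPm)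
  -- the step
  have hstep : ∀ O : Set Ω, MeasurableSet O → O ⊆ A0 → 0 < μ O →
      ∀ᶠ k in (U : Filter ℕ), 0 < μ (O ∩ {ω | 2 * (q:ℝ) < g k ω}) ∧
        0 < μ (O ∩ {ω | g k ω < 2 * (p:ℝ)}) := by
    intro O hO hsub hpos
    have h1 := rademacher_step μ e g R hem he horth hgm hg U hU 1 (Or.inl rfl) P hPm hPb q O hO
      hpos (fun ω hω => (hsub hω).2) (hP O hO)
    have h2 := rademacher_step μ e (fun k ω => - g k ω) R hem he horth (fun k => (hgm k).neg)
      (fun k ω => by rw [abs_neg]; exact hg k ω) U hU (-1) (Or.inr rfl) (fun ω => - N ω) hNm.neg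
      (fun ω => by rw [abs_neg]; exact hNb ω) (-p) O hO hpos
      (fun ω hω => by have := (hsub hω).1; simp only [Set.mem_ofPred_eq] at this; linarith) (by
        simp only [integral_neg]
        exact (hN O hO).neg)
    filter_upwards [h1, h2] with k hk1 hk2
    refine ⟨hk1, ?_⟩
    have heq : {ω | g k ω < 2 * (p:ℝ)} = {ω | 2 * (-(p:ℝ)) < - g k ω} := by
      ext ω
      simp only [Set.mem_ofPred_eq]
      constructor <;> intro h <;> linarith
    rw [heq]; exact hk2
  -- states
  let T : ℕ → Bool → Set Ω := fun k s => if s then {ω | 2 * (q:ℝ) < g k ω} else {ω | g k ω < 2 * (p:ℝ)}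
  have hTm : ∀ k s, MeasurableSet (T k s) := by
    intro k s
    cases s
    · exact measurableSet_lt (hgm k) measurable_const
    · exact measurableSet_lt measurable_const (hgm k)
  let St := {s : ℕ × List (Set Ω) // ∀ O ∈ s.2, MeasurableSet O ∧ O ⊆ A0 ∧ 0 < μ O}
  have hnext : ∀ s : St, ∃ s' : St, s.1.1 < s'.1.1 ∧
      ∀ O ∈ s.1.2, ∀ t : Bool, O ∩ T s'.1.1 t ∈ s'.1.2 := by
    rintro ⟨⟨m, F⟩, hF⟩
    simp only at hF ⊢
    have hev : ∀ᶠ k in (U : Filter ℕ), ∀ O ∈ F, 0 < μ (O ∩ T k true) ∧ 0 < μ (O ∩ T k false) := by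
      rw [show (∀ᶠ k in (U : Filter ℕ), ∀ O ∈ F, 0 < μ (O ∩ T k true) ∧ 0 < μ (O ∩ T k false)) ↔
        ∀ᶠ k in (U : Filter ℕ), ∀ O ∈ {O | O ∈ F}, 0 < μ (O ∩ T k true) ∧ 0 < μ (O ∩ T k false)
        from Iff.rfl]
      rw [Filter.eventually_all_finite (List.finite_toSet F)]
      intro O hO
      obtain ⟨h1, h2, h3⟩ := hF O hO
      have h := hstep O h1 h2 h3
      simpa [T] using h
    have hgt : ∀ᶠ k in (U : Filter ℕ), m < k := hU (eventually_gt_atTop m)
    obtain ⟨k, hk1, hk2⟩ := (hev.and hgt).exists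
    refine ⟨⟨(k, F.flatMap (fun O => [O ∩ T k true, O ∩ T k false])), ?_⟩, hk2, ?_⟩
    · intro O' hO'
      simp only [List.mem_flatMap, List.mem_cons, List.not_mem_nil, or_false] at hO'
      obtain ⟨O, hO, hO'⟩ := hO'
      obtain ⟨h1, h2, h3⟩ := hF O hO
      rcases hO' with rfl | rfl
      · exact ⟨h1.inter (hTm k true), Set.inter_subset_left.trans h2, (hk1 O hO).1⟩
      · exact ⟨h1.inter (hTm k false), Set.inter_subset_left.trans h2, (hk1 O hO).2⟩
    · intro O hO t
      simp only [List.mem_flatMap, List.mem_cons, List.not_mem_nil, or_false]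
      refine ⟨O, hO, ?_⟩
      cases t
      · exact Or.inr rfl
      · exact Or.inl rfl
  choose nxt hnxt1 hnxt2 using hnext
  let s0 : St := ⟨(0, [A0]), by
    intro O hO
    simp only [List.mem_singleton] at hO
    subst hO
    exact ⟨hA0m, subset_rfl, hA0⟩⟩
  let sq : ℕ → St := fun n => Nat.rec s0 (fun _ s => nxt s) n
  have hsq : ∀ n, sq (n+1) = nxt (sq n) := fun n => rfl
  refine ⟨2 * p, 2 * q, fun n => (sq (n+1)).1.1, ?_, ?_, ?_⟩
  · have : (p:ℝ) < q := by exact_mod_cast hpq
    linarith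
  · apply strictMono_nat_of_lt_succ
    intro n
    rw [hsq (n+1)]
    exact hnxt1 (sq (n+1))
  · intro n σ
    have hmain : ∀ n, ∃ O ∈ (sq n).1.2, ∀ i < n, O ⊆ T ((sq (i+1)).1.1) (σ i) := by
      intro n
      induction n with
      | zero => exact ⟨A0, by simp [sq, s0], fun i hi => absurd hi (Nat.not_lt_zero i)⟩
      | succ n ih =>
        obtain ⟨O, hO, hOi⟩ := ih
        refine ⟨O ∩ T (sq (n+1)).1.1 (σ n), ?_, ?_⟩
        · rw [hsq n]
          exact hnxt2 (sq n) O hO (σ n)
        · intro i hi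
          rcases Nat.lt_succ_iff_lt_or_eq.mp hi with h | h
          · exact Set.inter_subset_left.trans (hOi i h)
          · subst h
            exact Set.inter_subset_right
    obtain ⟨O, hO, hOi⟩ := hmain n
    have hpos := ((sq n).2 O hO).2.2
    obtain ⟨ω, hω⟩ := nonempty_of_measure_ne_zero hpos.ne'
    refine ⟨ω, fun i hi => ?_⟩
    have h := hOi i hi hω
    constructor
    · intro hs
      rw [hs] at h
      simpa [T] using h
    · intro hs
      rw [hs] at h
      simpa [T] using h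

end Pool.Agent.H.MP_36cdb9_an
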