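import Pool.Agent.H.MP_36cdb9_an.Defs

set_option autoImplicit false

open MeasureTheory

namespace Pool.Agent.H.MP_36cdb9_an

/-- finite convex combinations of Dirac masses -/
theorem repr_finite_comb {S : Type} [TopologicalSpace S] [CompactSpace S] [MeasurableSpace S]
    [BorelSpace S] {ι : Type} (t : Finset ι) (w : ι → ℝ) (p : ι → S)
    (hw : ∀ i ∈ t, 0 ≤ w i) (hw1 : ∑ i ∈ t, w i = 1) :
    ∃ μ : ProbabilityMeasure S, ∀ f : S → ℝ, Continuous f →
      ∫ s, f s ∂(μ : Measure S) = ∑ i ∈ t, w i * f (p i) := by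
  classical
  let μ : Measure S := ∑ i ∈ t, ENNReal.ofReal (w i) • Measure.dirac (p i)
  have hμ : IsProbabilityMeasure μ := by
    constructor
    simp only [μ, Measure.coe_finsetSum, Finset.sum_apply, Measure.smul_apply,
      measure_univ, smul_eq_mul, mul_one]
    rw [← ENNReal.ofReal_sum_of_nonneg hw, hw1, ENNReal.ofReal_one]
  refine ⟨⟨μ, hμ⟩, fun f hf => ?_⟩
  change ∫ s, f s ∂μ = _
  simp only [μ]
  rw [integral_finsetSum_measure]
  · refine Finset.sum_congr rfl fun i hi => ?_
    rw [integral_smul_measure, ENNReal.toReal_ofReal (hw i hi), smul_eq_mul,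
      integral_dirac' _ _ hf.stronglyMeasurable]
  · intro i hi
    refine Integrable.smul_measure ?_ ENNReal.ofReal_ne_top
    exact (BoundedContinuousFunction.mkOfCompact ⟨f, hf⟩).integrable _

/-- M5: representing measures. -/
theorem exists_repr_measure {X : Type} [NormedAddCommGroup X] [NormedSpace ℝ X]
    {S : Type} [TopologicalSpace S] [CompactSpace S] [PolishSpace S] [MeasurableSpace S]
    [BorelSpace S] (ev : S → X →L[ℝ] ℝ) (hev : ∀ x, Continuous fun s => ev s x)
    (K : Set S) (hK : IsClosed K) (hne : K.Nonempty)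
    (z : X →L[ℝ] ℝ) (hz : ∀ x, ∃ s ∈ K, z x ≤ ev s x) :
    ∃ μ : Measure S, IsProbabilityMeasure μ ∧ μ Kᶜ = 0 ∧ ∀ x, z x = ∫ s, ev s x ∂μ := by
  classical
  haveI : CompactSpace K := isCompact_iff_compactSpace.1 hK.isCompact
  haveI : Nonempty K := hne.to_subtype
  have hcont : ∀ x, Continuous fun s : K => ev s x := fun x =>
    (hev x).comp continuous_subtype_val
  let Φ : X → ProbabilityMeasure K → ℝ := fun x μ => ∫ s, ev (s : S) x ∂(μ : Measure K)
  have hΦ : ∀ x, Continuous (Φ x) := by
    intro x
    exact ProbabilityMeasure.continuous_integral_boundedContinuousFunction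
      (BoundedContinuousFunction.mkOfCompact ⟨fun s : K => ev s x, hcont x⟩)
  -- finitely many conditions
  have hfin : ∀ F : Finset X, ∃ μ : ProbabilityMeasure K, ∀ x ∈ F, Φ x μ = z x := by
    intro F
    let P : K → (F → ℝ) := fun s x => ev s x
    let Ψ : ProbabilityMeasure K → (F → ℝ) := fun μ x => Φ x μ
    have hΨ : Continuous Ψ := continuous_pi fun x => hΦ x
    have hclosed : IsClosed (Set.range Ψ) := (isCompact_range hΨ).isClosed
    have hsub : convexHull ℝ (Set.range P) ⊆ Set.range Ψ := by
      intro y hy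
      rw [convexHull_eq] at hy
      obtain ⟨ι, t, w, q, hw, hw1, hq, hcm⟩ := hy
      have hq' : ∀ i : ι, ∃ s : K, i ∈ t → P s = q i := by
        intro i
        by_cases hi : i ∈ t
        · obtain ⟨s, hs⟩ := hq i hi
          exact ⟨s, fun _ => hs⟩
        · exact ⟨Classical.arbitrary K, fun h => absurd h hi⟩
      choose p hp using hq'
      obtain ⟨μ, hμ⟩ := repr_finite_comb t w p hw hw1
      refine ⟨μ, ?_⟩
      funext x
      change ∫ s, ev (s : S) (x : X) ∂(μ : Measure K) = y x
      rw [hμ (fun s : K => ev s x) (hcont x), ← hcm, Finset.centerMass_eq_of_sum_1 _ _ hw1,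
        Finset.sum_apply]
      refine Finset.sum_congr rfl fun i hi => ?_
      rw [Pi.smul_apply, smul_eq_mul, ← hp i hi]
    have hmem : (fun x : F => z x) ∈ closure (convexHull ℝ (Set.range P)) := by
      by_contra hnot
      obtain ⟨g, u, hgu, hug⟩ := geometric_hahn_banach_closed_point
        (convex_convexHull ℝ (Set.range P)).closure isClosed_closure hnot
      let t : F → ℝ := fun i => g (Pi.single i 1)
      have hg : ∀ y : F → ℝ, g y = ∑ i, y i * t i := by
        intro y
        conv_lhs => rw [pi_eq_sum_univ' y]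
        rw [map_sum]
        refine Finset.sum_congr rfl fun i _ => ?_
        rw [map_smul, smul_eq_mul]
      let y : X := ∑ i : F, t i • (i : X)
      obtain ⟨s, hs, hzs⟩ := hz y
      have h1 : g (P ⟨s, hs⟩) = ev s y := by
        rw [hg]
        simp [P, y, map_sum, mul_comm]
      have h2 : g (fun x : F => z x) = z y := by
        rw [hg]
        simp [y, map_sum, mul_comm]
      have h3 := hgu _ (subset_closure (subset_convexHull ℝ _ ⟨⟨s, hs⟩, rfl⟩))
      rw [h2] at hug
      rw [h1] at h3
      linarith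
    obtain ⟨μ, hμ⟩ := (hclosed.closure_subset_iff.2 hsub) hmem
    exact ⟨μ, fun x hx => congrFun hμ ⟨x, hx⟩⟩
  -- compactness
  obtain ⟨μ, -, hμ⟩ := isCompact_univ.inter_iInter_nonempty
    (fun x : X => {μ : ProbabilityMeasure K | Φ x μ = z x})
    (fun x => isClosed_eq (hΦ x) continuous_const)
    (fun F => by
      obtain ⟨μ, hμ⟩ := hfin F
      exact ⟨μ, trivial, by simpa using hμ⟩)
  have hμ' : ∀ x, Φ x μ = z x := fun x => by
    have := Set.mem_iInter.1 hμ x
    exact this
  refine ⟨(μ : Measure K).map Subtype.val, ?_, ?_, ?_⟩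
  · exact Measure.isProbabilityMeasure_map measurable_subtype_coe.aemeasurable
  · rw [Measure.map_apply measurable_subtype_coe hK.measurableSet.compl]
    have : (Subtype.val : K → S) ⁻¹' Kᶜ = ∅ := by
      ext s; simp
    rw [this, measure_empty]
  · intro x
    rw [integral_map measurable_subtype_coe.aemeasurable (hev x).aestronglyMeasurable, ← hμ' x]

end Pool.Agent.H.MP_36cdb9_an
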